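import Mathlib
import Pool.Agent.Helper53_TDG.Defs

/-!
# TDG: graph positions, closed sets, components, Lemma P
-/

set_option linter.unusedSectionVars false

namespace Pool.Agent.TDG.H71

open Finset Helper77.TDG Pool.Agent.TDG

variable {V X : Type*} [Fintype V] [DecidableEq V] [DecidableEq X]
variable {N : V → Finset X} {Hv U W K D B : Finset X}

/-! ## Closed sets -/

lemma closed_refl (U : Finset X) : Closed N U U :=
  ⟨Subset.refl _, fun _ _ => inter_subset_right⟩

lemma _root_.Pool.Agent.TDG.Closed.sub71 (h : Closed N U K) : K ⊆ U := h.1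

lemma _root_.Pool.Agent.TDG.Closed.inter_sub71 (h : Closed N U K) {v : V} (hv : (N v ∩ K).Nonempty) : N v ∩ U ⊆ K :=
  h.2 v hv

lemma _root_.Pool.Agent.TDG.Closed.compl71 (h : Closed N U K) : Closed N U (U \ K) := by
  refine ⟨sdiff_subset, fun v hv x hx => ?_⟩
  rw [mem_inter] at hx
  rw [mem_sdiff]
  refine ⟨hx.2, fun hxK => ?_⟩
  obtain ⟨y, hy⟩ := hv
  simp only [mem_inter, mem_sdiff] at hy
  have := h.2 v ⟨x, mem_inter.2 ⟨hx.1, hxK⟩⟩ (mem_inter.2 ⟨hy.1, hy.2.1⟩)
  exact hy.2.2 this

lemma _root_.Pool.Agent.TDG.Closed.trans71 (h : Closed N K D) (h' : Closed N U K) : Closed N U D := by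
  refine ⟨h.1.trans h'.1, fun v hv => ?_⟩
  have h1 : (N v ∩ K).Nonempty := hv.mono (inter_subset_inter_left h.1)
  have h2 := h'.2 v h1
  intro x hx
  have hxK := h2 hx
  rw [mem_inter] at hx
  exact h.2 v hv (mem_inter.2 ⟨hx.1, hxK⟩)

lemma _root_.Pool.Agent.TDG.Closed.mono71 (h : Closed N U D) (h1 : D ⊆ K) (h2 : K ⊆ U) : Closed N K D :=
  ⟨h1, fun v hv => (inter_subset_inter_left h2).trans (h.2 v hv)⟩

lemma _root_.Pool.Agent.TDG.Closed.inter71 (h : Closed N U K) (h' : Closed N U D) : Closed N U (K ∩ D) := by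
  refine ⟨inter_subset_left.trans h.1, fun v hv => ?_⟩
  have h1 := h.2 v (hv.mono (inter_subset_inter_left inter_subset_left))
  have h2 := h'.2 v (hv.mono (inter_subset_inter_left inter_subset_right))
  exact subset_inter h1 h2

lemma _root_.Pool.Agent.TDG.Closed.union71 (h : Closed N U K) (h' : Closed N U D) : Closed N U (K ∪ D) := by
  refine ⟨union_subset h.1 h'.1, fun v hv => ?_⟩
  rw [inter_union_distrib_left, union_nonempty] at hv
  rcases hv with hv | hv
  · exact (h.2 v hv).trans subset_union_left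
  · exact (h'.2 v hv).trans subset_union_right

lemma _root_.Pool.Agent.TDG.Closed.sep71 (h : Closed N U D) : Sep N D (U \ D) := by
  intro v hv hv'
  obtain ⟨x, hx⟩ := hv'
  simp only [mem_inter, mem_sdiff] at hx
  exact hx.2.2 (h.2 v hv (mem_inter.2 ⟨hx.1, hx.2.1⟩))

lemma closed_of_sep (h : Sep N D B) : Closed N (D ∪ B) D := by
  refine ⟨subset_union_left, fun v hv x hx => ?_⟩
  rw [mem_inter, mem_union] at hx
  rcases hx.2 with h1 | h1
  · exact h1
  · exact absurd ⟨x, mem_inter.2 ⟨hx.1, h1⟩⟩ (h v hv)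

/-- A player meeting a closed set `D` sees the same targets in `D` and in `U`. -/
lemma _root_.Pool.Agent.TDG.Closed.inter_eq71 (h : Closed N U D) {v : V} (hv : (N v ∩ D).Nonempty) :
    N v ∩ D = N v ∩ U := by
  apply Subset.antisymm (inter_subset_inter_left h.1)
  exact subset_inter inter_subset_left (h.2 v hv)

/-! ## Components -/

lemma exists_comp_mem : ∀ (k : ℕ) (U : Finset X) (x : X), U.card ≤ k → x ∈ U →
    ∃ K, IsComp N U K ∧ x ∈ K := by
  intro k
  induction k with
  | zero =>
    intro U x hU hx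
    have : U = ∅ := by rw [← card_eq_zero]; omega
    subst this
    simp at hx
  | succ k ih =>
    intro U x hU hx
    by_cases hc : Conn N U
    · exact ⟨U, ⟨closed_refl U, hc⟩, hx⟩
    · unfold Conn at hc
      push Not at hc
      obtain ⟨D, hD, hDc, hne⟩ := hc ⟨x, hx⟩
      have hlt : D.card < U.card := card_lt_card (hDc.1.ssubset_of_ne hne)
      have hpos := card_pos.2 hD
      have hle := card_sdiff_add_card_eq_card hDc.1
      by_cases hxD : x ∈ D
      · obtain ⟨K, hK, hxK⟩ := ih D x (by omega) hxD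
        exact ⟨K, ⟨hK.1.trans71 hDc, hK.2⟩, hxK⟩
      · obtain ⟨K, hK, hxK⟩ := ih (U \ D) x (by omega) (mem_sdiff.2 ⟨hx, hxD⟩)
        exact ⟨K, ⟨hK.1.trans71 hDc.compl71, hK.2⟩, hxK⟩

lemma mem_comps : K ∈ comps N U ↔ IsComp N U K := by
  classical
  unfold comps
  rw [mem_filter, mem_powerset]
  exact ⟨fun h => h.2, fun h => ⟨h.1.1, h⟩⟩

lemma comps_empty : comps N (∅ : Finset X) = ∅ := by
  ext K
  rw [mem_comps]
  constructor
  · intro h
    have := h.1.1
    rw [subset_empty] at this
    subst this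
    exact absurd h.2.1 (by simp)
  · intro h; simp at h

lemma comps_conn (h : Conn N U) : comps N U = {U} := by
  ext K
  rw [mem_comps, mem_singleton]
  constructor
  · intro hK
    exact h.2 K hK.2.1 hK.1
  · rintro rfl
    exact ⟨closed_refl _, h⟩

lemma comps_split (h : Closed N U D) : comps N U = comps N D ∪ comps N (U \ D) := by
  ext K
  rw [mem_union, mem_comps, mem_comps, mem_comps]
  constructor
  · intro hK
    by_cases hKD : (K ∩ D).Nonempty
    · left
      have h1 : Closed N K (K ∩ D) := by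
        have := hK.1.inter71 h
        exact this.mono71 inter_subset_left hK.1.1
      have h2 := hK.2.2 _ hKD h1
      have h3 : K ⊆ D := by rw [← h2]; exact inter_subset_right
      exact ⟨hK.1.mono71 h3 h.1, hK.2⟩
    · right
      rw [not_nonempty_iff_eq_empty, ← disjoint_iff_inter_eq_empty] at hKD
      have h3 : K ⊆ U \ D := by
        intro x hx
        exact mem_sdiff.2 ⟨hK.1.1 hx, fun hxD => disjoint_left.1 hKD hx hxD⟩
      exact ⟨hK.1.mono71 h3 sdiff_subset, hK.2⟩
  · rintro (hK | hK)
    · exact ⟨hK.1.trans71 h, hK.2⟩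
    · exact ⟨hK.1.trans71 h.compl71, hK.2⟩

lemma comps_disj (U D : Finset X) : Disjoint (comps N D) (comps N (U \ D)) := by
  rw [disjoint_left]
  intro K h1 h2
  rw [mem_comps] at h1 h2
  obtain ⟨x, hx⟩ := h1.2.1
  have := h2.1.1 hx
  rw [mem_sdiff] at this
  exact this.2 (h1.1.1 hx)

lemma sum_comps_split (h : Closed N U D) {M : Type*} [AddCommMonoid M] (f : Finset X → M) :
    ∑ K ∈ comps N U, f K = ∑ K ∈ comps N D, f K + ∑ K ∈ comps N (U \ D), f K := by
  rw [comps_split h, sum_union (comps_disj U D)]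

/-! ## Potential -/

/-- `Φ` without heavy targets. -/
def P (N : V → Finset X) (W : Finset X) : ℕ := W.card + (alive N W).card

lemma Phi_eq_P (h : Disjoint W Hv) : Phi N Hv W = P N W := by
  unfold Phi P
  rw [disjoint_iff_inter_eq_empty.1 h]
  simp

lemma alive_union_of_closed (h : Closed N U D) :
    (alive N U).card = (alive N D).card + (alive N (U \ D)).card := by
  rw [← card_union_of_disjoint]
  · congr 1
    ext v
    rw [mem_union, mem_alive, mem_alive, mem_alive]
    constructor
    · rintro ⟨x, hx⟩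
      rw [mem_inter] at hx
      by_cases hxD : x ∈ D
      · left; exact ⟨x, mem_inter.2 ⟨hx.1, hxD⟩⟩
      · right; exact ⟨x, mem_inter.2 ⟨hx.1, mem_sdiff.2 ⟨hx.2, hxD⟩⟩⟩
    · rintro (hv | hv)
      · exact hv.mono (inter_subset_inter_left h.1)
      · exact hv.mono (inter_subset_inter_left sdiff_subset)
  · rw [disjoint_left]
    intro v h1 h2
    rw [mem_alive] at h1 h2
    exact h.sep71 v h1 h2

lemma P_split (h : Closed N U D) : P N U = P N D + P N (U \ D) := by
  unfold P
  have h1 := alive_union_of_closed h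
  have h2 := card_sdiff_add_card_eq_card h.1
  omega

/-- `2ρ`. -/
def r2 (p : ℕ) : ℕ := if p % 3 = 0 then 0 else if p % 3 = 1 then 2 else 1

lemma r2_eq (p : ℕ) : (r2 p = 0 ∧ p % 3 = 0) ∨ (r2 p = 2 ∧ p % 3 = 1) ∨ (r2 p = 1 ∧ p % 3 = 2) := by
  unfold r2
  have : p % 3 < 3 := Nat.mod_lt _ (by norm_num)
  by_cases h0 : p % 3 = 0
  · simp [h0]
  · by_cases h1 : p % 3 = 1
    · simp [h1]
    · have h2 : p % 3 = 2 := by omega
      simp [h2]

/-- Sum of `2ρ` over the components. -/
noncomputable def rr (N : V → Finset X) (W : Finset X) : ℕ := ∑ L ∈ comps N W, r2 (P N L)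

lemma rr_split (h : Closed N U D) : rr N U = rr N D + rr N (U \ D) :=
  sum_comps_split h _

lemma rr_conn (h : Conn N U) : rr N U = r2 (P N U) := by
  unfold rr
  rw [comps_conn h, sum_singleton]

@[simp] lemma rr_empty : rr N (∅ : Finset X) = 0 := by
  unfold rr
  rw [comps_empty, sum_empty]

@[simp] lemma P_empty : P N (∅ : Finset X) = 0 := by
  unfold P
  have : alive N (∅ : Finset X) = ∅ := by
    ext v
    rw [mem_alive]
    simp
  rw [this]
  simp

/-- Induction principle along closed splittings. -/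
lemma rr_mod : ∀ (k : ℕ) (W : Finset X), W.card ≤ k → (rr N W) % 3 = (2 * P N W) % 3 := by
  intro k
  induction k with
  | zero =>
    intro W hW
    have : W = ∅ := by rw [← card_eq_zero]; omega
    subst this
    simp
  | succ k ih =>
    intro W hW
    rcases W.eq_empty_or_nonempty with rfl | hne
    · simp
    by_cases hc : Conn N W
    · rw [rr_conn hc]
      have := r2_eq (P N W)
      omega
    · unfold Conn at hc
      push Not at hc
      obtain ⟨D, hD, hDc, hne'⟩ := hc hne
      have hlt : D.card < W.card := card_lt_card (hDc.1.ssubset_of_ne hne')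
      have hpos := card_pos.2 hD
      have hle := card_sdiff_add_card_eq_card hDc.1
      have h1 := ih D (by omega)
      have h2 := ih (W \ D) (by omega)
      have h3 := rr_split hDc
      have h4 := P_split hDc
      omega

/-! ## Graph positions -/

/-- Every player has at most two targets in `W`. -/
def GPos (N : V → Finset X) (W : Finset X) : Prop := ∀ v, (N v ∩ W).card ≤ 2

/-- Every component has a pendant player. -/
def Pend (N : V → Finset X) (W : Finset X) : Prop :=
  ∀ D, D.Nonempty → Closed N W D → ∃ z ∈ D, ∃ v, N v ∩ W = {z}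

lemma GPos.mono (h : GPos N W) (hK : K ⊆ W) : GPos N K :=
  fun v => (card_le_card (inter_subset_inter_left hK)).trans (h v)

lemma Pend.closed (h : Pend N W) (hK : Closed N W K) : Pend N K := by
  intro D hD hDc
  obtain ⟨z, hz, v, hv⟩ := h D hD (hDc.trans71 hK)
  refine ⟨z, hz, v, ?_⟩
  have : (N v ∩ K).Nonempty := by
    refine ⟨z, mem_inter.2 ⟨?_, hDc.1 hz⟩⟩
    have : z ∈ N v ∩ W := by rw [hv]; simp
    exact (mem_inter.1 this).1
  rw [hK.inter_eq71 this, hv]

/-- (0.1) -/
lemma Pend.sdiff (h : Pend N W) (hG : GPos N W) (Z : Finset X) : Pend N (W \ Z) := by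
  intro D hD hDc
  by_contra hno
  push Not at hno
  have hDW : D ⊆ W := hDc.1.trans sdiff_subset
  have key : ∀ v, (N v ∩ D).Nonempty → N v ∩ W ⊆ D := by
    intro v hv
    have h1 := hDc.2 v hv
    obtain ⟨y, hy⟩ := hv
    rw [mem_inter] at hy
    have hyW : y ∈ N v ∩ (W \ Z) := mem_inter.2 ⟨hy.1, hDc.1 hy.2⟩
    have h2 : 2 ≤ (N v ∩ (W \ Z)).card := by
      by_contra hlt
      have h3 : (N v ∩ (W \ Z)).card = 1 := by
        have := card_pos.2 ⟨y, hyW⟩
        omega
      obtain ⟨z, hz⟩ := card_eq_one.1 h3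
      have : y = z := by rw [hz] at hyW; simpa using hyW
      subst this
      exact hno y hy.2 v hz
    have h4 : N v ∩ (W \ Z) = N v ∩ W := by
      refine eq_of_subset_of_card_le (inter_subset_inter_left sdiff_subset) ?_
      have := hG v
      omega
    rw [← h4]
    exact h1
  obtain ⟨z, hz, v, hv⟩ := h D hD ⟨hDW, key⟩
  refine hno z hz v ?_
  ext y
  rw [mem_inter, mem_singleton]
  constructor
  · rintro ⟨h1, h2⟩
    have : y ∈ N v ∩ W := mem_inter.2 ⟨h1, (mem_sdiff.1 h2).1⟩
    rw [hv] at this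
    simpa using this
  · rintro rfl
    have : y ∈ N v ∩ W := by rw [hv]; simp
    exact ⟨(mem_inter.1 this).1, hDc.1 hz⟩

/-- Removing targets from a connected closed graph. -/
lemma pend_of_graph (hG : ∀ v, (N v ∩ K).Nonempty → (N v ∩ K).card = 2) (hc : Conn N K)
    (hB : (K ∩ B).Nonempty) : Pend N (K \ B) := by
  intro D hD hDc
  by_contra hno
  push Not at hno
  have hDK : D ⊆ K := hDc.1.trans sdiff_subset
  have key : ∀ v, (N v ∩ D).Nonempty → N v ∩ K ⊆ D := by
    intro v hv
    have h1 := hDc.2 v hv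
    obtain ⟨y, hy⟩ := hv
    rw [mem_inter] at hy
    have hyW : y ∈ N v ∩ (K \ B) := mem_inter.2 ⟨hy.1, hDc.1 hy.2⟩
    have h2 : 2 ≤ (N v ∩ (K \ B)).card := by
      by_contra hlt
      have h3 : (N v ∩ (K \ B)).card = 1 := by
        have := card_pos.2 ⟨y, hyW⟩
        omega
      obtain ⟨z, hz⟩ := card_eq_one.1 h3
      have : y = z := by rw [hz] at hyW; simpa using hyW
      subst this
      exact hno y hy.2 v hz
    have h4 : N v ∩ (K \ B) = N v ∩ K := by
      refine eq_of_subset_of_card_le (inter_subset_inter_left sdiff_subset) ?_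
      have := hG v ⟨y, mem_inter.2 ⟨hy.1, hDK hy.2⟩⟩
      omega
    rw [← h4]
    exact h1
  have := hc.2 D hD ⟨hDK, key⟩
  obtain ⟨b, hb⟩ := hB
  rw [mem_inter] at hb
  have h5 : b ∈ D := by rw [this]; exact hb.1
  have := hDc.1 h5
  rw [mem_sdiff] at this
  exact this.2 hb.2

/-! ## Gains -/

/-- The players who die with the removal of `Z` from the position `W`. -/
def dead (N : V → Finset X) (W Z : Finset X) : Finset V :=
  (alive N W).filter fun v => N v ∩ W ⊆ Z

lemma mem_dead {Z : Finset X} {v : V} :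
    v ∈ dead N W Z ↔ (N v ∩ W).Nonempty ∧ N v ∩ W ⊆ Z := by
  unfold dead
  rw [mem_filter, mem_alive]

lemma alive_sdiff (W Z : Finset X) :
    (alive N (W \ Z)).card + (dead N W Z).card = (alive N W).card := by
  rw [← card_union_of_disjoint]
  · congr 1
    ext v
    rw [mem_union, mem_alive, mem_dead, mem_alive]
    constructor
    · rintro (h | h)
      · exact h.mono (inter_subset_inter_left sdiff_subset)
      · exact h.1
    · intro h
      by_cases h1 : N v ∩ W ⊆ Z
      · exact Or.inr ⟨h, h1⟩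
      · left
        rw [not_subset] at h1
        obtain ⟨x, hx, hxZ⟩ := h1
        rw [mem_inter] at hx
        exact ⟨x, mem_inter.2 ⟨hx.1, mem_sdiff.2 ⟨hx.2, hxZ⟩⟩⟩
  · rw [disjoint_left]
    intro v h1 h2
    rw [mem_alive] at h1
    rw [mem_dead] at h2
    obtain ⟨x, hx⟩ := h1
    simp only [mem_inter, mem_sdiff] at hx
    exact hx.2.2 (h2.2 (mem_inter.2 ⟨hx.1, hx.2.1⟩))

lemma P_sdiff (W Z : Finset X) :
    P N (W \ Z) + ((W ∩ Z).card + (dead N W Z).card) = P N W := by
  unfold P
  have h1 := alive_sdiff (N := N) W Z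
  have h2 : (W \ Z).card + (W ∩ Z).card = W.card := card_sdiff_add_card_inter W Z
  omega

lemma P_move (W : Finset X) (v : V) :
    P N (W \ N v) + ((N v ∩ W).card + (dead N W (N v)).card) = P N W := by
  have := P_sdiff (N := N) W (N v)
  rwa [inter_comm W (N v)] at this

lemma self_mem_dead {v : V} (hv : (N v ∩ W).Nonempty) : v ∈ dead N W (N v) := by
  rw [mem_dead]
  exact ⟨hv, inter_subset_left⟩

lemma gain_two {v : V} (hv : (N v ∩ W).Nonempty) : P N (W \ N v) + 2 ≤ P N W := by
  have h1 := P_move (N := N) W v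
  have h2 := card_pos.2 hv
  have h3 := card_pos.2 ⟨v, self_mem_dead hv⟩
  omega

/-- A single target. -/
lemma ns_single (z : X) (hz : ∃ v, z ∈ N v) : ns N {z} ≤ 2 := by
  have hmv : ∀ v, (N v ∩ {z}).Nonempty → ({z} : Finset X) \ N v = ∅ := by
    intro v hv
    obtain ⟨x, hx⟩ := hv
    rw [mem_inter, mem_singleton] at hx
    rw [sdiff_eq_empty_iff_subset, singleton_subset_iff]
    rw [← hx.2]; exact hx.1
  refine ns_le_of_loc ⟨fun v hv => ?_, fun h => ?_, fun _ => ?_⟩
  · rw [hmv v hv]; simp
  · omega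
  · obtain ⟨v, hv⟩ := hz
    have h1 : (N v ∩ {z}).Nonempty := ⟨z, by simp [hv]⟩
    refine ⟨v, h1, ?_⟩
    rw [hmv v h1]; simp

/-- In a connected graph position with at least two targets every target is on an edge. -/
lemma exists_edge (hc : Conn N W) (hG : GPos N W) (h2 : 2 ≤ W.card) {z : X} (hz : z ∈ W) :
    ∃ v, z ∈ N v ∧ (N v ∩ W).card = 2 := by
  by_contra hno
  push Not at hno
  have hcl : Closed N W {z} := by
    refine ⟨by simpa using hz, fun v hv => ?_⟩
    obtain ⟨x, hx⟩ := hv
    rw [mem_inter, mem_singleton] at hx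
    obtain ⟨hx, rfl⟩ := hx
    have h3 := hno v hx
    have h4 := hG v
    have h5 : x ∈ N v ∩ W := mem_inter.2 ⟨hx, hz⟩
    have h6 : (N v ∩ W).card = 1 := by
      have := card_pos.2 ⟨x, h5⟩
      omega
    obtain ⟨y, hy⟩ := card_eq_one.1 h6
    rw [hy] at h5 ⊢
    rw [mem_singleton] at h5
    rw [h5]
  have := hc.2 {z} (by simp) hcl
  rw [← this] at h2
  simp at h2

/-- **Lemma P.** -/
theorem lemmaP (hH : ∀ x ∈ W, 2 ≤ (univ.filter fun v => x ∈ N v).card)
    (hG : GPos N W) (hP : Pend N W) : 3 * ns N W + rr N W ≤ 2 * P N W := by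
  suffices H : ∀ (k : ℕ) (W : Finset X), W.card ≤ k →
      (∀ x ∈ W, 2 ≤ (univ.filter fun v => x ∈ N v).card) → GPos N W → Pend N W →
      3 * ns N W + rr N W ≤ 2 * P N W from H W.card W le_rfl hH hG hP
  intro k
  induction k with
  | zero =>
    intro W hW _ _ _
    have : W = ∅ := by rw [← card_eq_zero]; omega
    subst this
    simp
  | succ k ih =>
    intro W hW hH hG hP
    rcases W.eq_empty_or_nonempty with rfl | hne
    · simp
    by_cases hc : Conn N W
    swap
    · unfold Conn at hc
      push Not at hc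
      obtain ⟨D, hD, hDc, hne'⟩ := hc hne
      have hlt : D.card < W.card := card_lt_card (hDc.1.ssubset_of_ne hne')
      have hpos := card_pos.2 hD
      have hle := card_sdiff_add_card_eq_card hDc.1
      have h1 := ih D (by omega) (fun x hx => hH x (hDc.1 hx)) (hG.mono hDc.1) (hP.closed hDc)
      have h2 := ih (W \ D) (by omega) (fun x hx => hH x (sdiff_subset hx)) (hG.mono sdiff_subset)
        (hP.closed hDc.compl71)
      have h3 := rr_split hDc
      have h4 := P_split hDc
      have h5 := ns_union hDc.sep71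
      rw [union_sdiff_of_subset hDc.1] at h5
      omega
    -- connected case
    rw [rr_conn hc]
    have hr := r2_eq (P N W)
    have hcov : ∀ x ∈ W, ∃ v, x ∈ N v := by
      intro x hx
      have h := hH x hx
      have : 0 < (univ.filter fun v => x ∈ N v).card := by omega
      obtain ⟨v, hv⟩ := card_pos.1 this
      exact ⟨v, (mem_filter.1 hv).2⟩
    obtain ⟨m, hm⟩ : ∃ m, 3 * m + r2 (P N W) = 2 * P N W := by
      refine ⟨(2 * P N W - r2 (P N W)) / 3, ?_⟩
      omega
    have hPge : 3 ≤ P N W := by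
      obtain ⟨z, hz⟩ := hne
      have h1 := hH z hz
      have h2 : (univ.filter fun v => z ∈ N v) ⊆ alive N W := by
        intro v hv
        rw [mem_filter] at hv
        rw [mem_alive]
        exact ⟨z, mem_inter.2 ⟨hv.2, hz⟩⟩
      have h3 := card_le_card h2
      have h4 := card_pos.2 ⟨z, hz⟩
      unfold P
      omega
    suffices hle : ns N W ≤ m by omega
    by_cases hW1 : W.card = 1
    · obtain ⟨z, rfl⟩ := card_eq_one.1 hW1
      have := ns_single z (hcov z (by simp))
      omega
    have hW2 : 2 ≤ W.card := by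
      have := card_pos.2 hne
      omega
    have hstep : ∀ v, (N v ∩ W).Nonempty → 3 * ns N (W \ N v) ≤ 2 * P N (W \ N v) := by
      intro v hv
      have h1 := sdiff_card_lt hv
      have := ih (W \ N v) (by omega) (fun x hx => hH x (sdiff_subset hx)) (hG.mono sdiff_subset)
        (hP.sdiff hG _)
      omega
    refine ns_le_of_loc ⟨fun v hv => ?_, fun hodd => ?_, fun h42 => ?_⟩
    · have h1 := hstep v hv
      have h2 := gain_two hv
      omega
    · obtain ⟨z, hz, v0, hv0⟩ := hP W hne (closed_refl W)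
      obtain ⟨v1, hzv, hv1⟩ := exists_edge hc hG hW2 hz
      have hne1 : (N v1 ∩ W).Nonempty := ⟨z, mem_inter.2 ⟨hzv, hz⟩⟩
      refine ⟨v1, hne1, ?_⟩
      have h1 := hstep v1 hne1
      have h2 := P_move (N := N) W v1
      have hne01 : v0 ≠ v1 := by
        rintro rfl
        rw [hv0] at hv1
        simp at hv1
      have h3 : 2 ≤ (dead N W (N v1)).card := by
        have hsub : ({v0, v1} : Finset V) ⊆ dead N W (N v1) := by
          intro v hv
          rw [mem_insert, mem_singleton] at hv
          rcases hv with rfl | rfl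
          · rw [mem_dead, hv0]
            exact ⟨by simp, by simpa using hzv⟩
          · exact self_mem_dead hne1
        have := card_le_card hsub
        rw [card_pair hne01] at this
        exact this
      omega
    · obtain ⟨z, hz⟩ := hne
      obtain ⟨v1, hzv, hv1⟩ := exists_edge hc hG hW2 hz
      have hne1 : (N v1 ∩ W).Nonempty := ⟨z, mem_inter.2 ⟨hzv, hz⟩⟩
      refine ⟨v1, hne1, ?_⟩
      have h1 := hstep v1 hne1
      have h2 := P_move (N := N) W v1
      have h3 := card_pos.2 ⟨v1, self_mem_dead hne1⟩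
      omega

end Pool.Agent.TDG.H71
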