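import Mathlib
import Pool.Agent.Helper71_TDG.GPos

/-!
# TDG: the positions T0 and T2, truly bad graphs, first facts
-/

set_option linter.unusedSectionVars false

namespace Pool.Agent.TDG.H71

open Finset Helper77.TDG Pool.Agent.TDG

variable {V X : Type*} [Fintype V] [DecidableEq V] [DecidableEq X]
variable {N : V → Finset X} {Hv U W K D B : Finset X}

/-- Every target of `W` has at least two players. -/
def Two (N : V → Finset X) (W : Finset X) : Prop :=
  ∀ x ∈ W, 2 ≤ (univ.filter fun v => x ∈ N v).card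

lemma Two.mono (h : Two N W) (hK : K ⊆ W) : Two N K := fun x hx => h x (hK hx)

/-- `T0` positions. -/
structure T0 (N : V → Finset X) (W : Finset X) : Prop where
  g : GPos N W
  p : Pend N W
  two : Two N W
  ex : ∃ j, P N W = 6 * j ∧ ns N W = 4 * j

/-- `T2` positions. -/
structure T2 (N : V → Finset X) (W : Finset X) : Prop where
  g : GPos N W
  p : Pend N W
  two : Two N W
  ex : ∃ j, P N W = 6 * j + 2 ∧ ns N W = 4 * j + 1

lemma T0.rr0 (h : T0 N W) : rr N W = 0 := by
  obtain ⟨j, h1, h2⟩ := h.ex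
  have := lemmaP h.two h.g h.p
  omega

lemma T2.rr1 (h : T2 N W) : rr N W = 1 := by
  obtain ⟨j, h1, h2⟩ := h.ex
  have := lemmaP h.two h.g h.p
  have := rr_mod (N := N) W.card W le_rfl
  omega

lemma rr_closed_le (h : Closed N W D) : rr N D ≤ rr N W := by
  have := rr_split h
  omega

lemma T0.closed_mod (h : T0 N W) (hD : Closed N W D) : P N D % 3 = 0 := by
  have h1 := rr_closed_le hD
  have h2 := h.rr0
  have := rr_mod (N := N) D.card D le_rfl
  omega

/-- (3.2) -/
lemma T0.move (h : T0 N W) {v : V} (hv : (N v ∩ W).Nonempty) :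
    (N v ∩ W).card + (dead N W (N v)).card ≤ 4 ∧
    ((N v ∩ W).card + (dead N W (N v)).card = 4 → T2 N (W \ N v)) := by
  obtain ⟨j, h1, h2⟩ := h.ex
  have hP : ∀ w, 3 * ns N (W \ N w) ≤ 2 * P N (W \ N w) := by
    intro w
    have := lemmaP (h.two.mono sdiff_subset) (h.g.mono (sdiff_subset (t := N w)))
      (h.p.sdiff h.g (N w))
    omega
  have hne : W.Nonempty := by
    obtain ⟨x, hx⟩ := hv
    exact ⟨x, (mem_inter.1 hx).2⟩
  have hj : 1 ≤ j := by
    have := card_pos.2 hne
    unfold P at h1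
    omega
  have hno : ∀ w, (N w ∩ W).Nonempty → ¬ (ns N (W \ N w) ≤ 4 * j - 4) := by
    intro w hw hle
    have : ns N W ≤ 4 * j - 1 := by
      refine ns_le_of_loc ⟨fun w' hw' => ?_, fun _ => ⟨w, hw, by omega⟩, fun h4 => by omega⟩
      have h3 := hP w'
      have h4 := gain_two hw'
      omega
    omega
  have hm := P_move (N := N) W v
  have h3 := hP v
  have h4 := hno v hv
  refine ⟨by omega, fun hg => ⟨h.g.mono sdiff_subset, h.p.sdiff h.g _, h.two.mono sdiff_subset,
    j - 1, by omega, by omega⟩⟩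

/-- The pendant players at `z`. -/
def pd (N : V → Finset X) (W : Finset X) (z : X) : Finset V := univ.filter fun v => N v ∩ W = {z}

lemma mem_pd {z : X} {v : V} : v ∈ pd N W z ↔ N v ∩ W = {z} := by simp [pd]

lemma mem_of_pd {z : X} {v : V} (h : N v ∩ W = {z}) : z ∈ N v ∧ z ∈ W := by
  have : z ∈ N v ∩ W := by rw [h]; simp
  exact mem_inter.1 this

lemma dead_single {z : X} (hz : z ∈ W) : dead N W {z} = pd N W z := by
  ext v
  rw [mem_dead, mem_pd]
  constructor
  · rintro ⟨h1, h2⟩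
    rw [subset_singleton_iff] at h2
    rcases h2 with h2 | h2
    · rw [h2] at h1; simp at h1
    · exact h2
  · intro h
    rw [h]
    simp

/-- A pendant persists. -/
lemma pd_mono {z : X} {v : V} (h : N v ∩ W = {z}) (hK : K ⊆ W) (hz : z ∈ K) : N v ∩ K = {z} := by
  ext y
  rw [mem_inter, mem_singleton]
  constructor
  · rintro ⟨h1, h2⟩
    have : y ∈ N v ∩ W := mem_inter.2 ⟨h1, hK h2⟩
    rw [h] at this
    simpa using this
  · rintro rfl
    exact ⟨(mem_of_pd h).1, hz⟩

/-- (3.4) -/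
lemma T2.answer (h : T2 N W) : ∃ y ∈ W, (∃ v, N v ∩ W = {y}) ∧ (pd N W y).card = 1 ∧
    T0 N (W \ {y}) := by
  obtain ⟨j, h1, h2⟩ := h.ex
  by_contra hno
  have hP : ∀ w, 3 * ns N (W \ N w) ≤ 2 * P N (W \ N w) := by
    intro w
    have := lemmaP (h.two.mono sdiff_subset) (h.g.mono (sdiff_subset (t := N w)))
      (h.p.sdiff h.g (N w))
    omega
  have : ns N W ≤ 4 * j := by
    refine ns_le_of_loc ⟨fun w hw => ?_, fun h4 => by omega, fun h4 => by omega⟩
    by_contra hlt
    push Not at hlt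
    have h3 := hP w
    have h4 := P_move (N := N) W w
    have h5 := card_pos.2 hw
    have h6 := card_pos.2 ⟨w, self_mem_dead hw⟩
    have h7 : (N w ∩ W).card = 1 := by omega
    have h8 : (dead N W (N w)).card = 1 := by omega
    obtain ⟨y, hy⟩ := card_eq_one.1 h7
    have hyW := mem_of_pd hy
    have h9 : W \ N w = W \ {y} := by
      rw [← hy]
      ext x
      simp only [mem_sdiff, mem_inter]
      tauto
    have h10 : dead N W (N w) = pd N W y := by
      rw [← dead_single hyW.2]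
      ext v
      rw [mem_dead, mem_dead]
      constructor
      · rintro ⟨ha, hb⟩
        refine ⟨ha, ?_⟩
        rw [← hy]
        exact subset_inter hb inter_subset_right
      · rintro ⟨ha, hb⟩
        refine ⟨ha, ?_⟩
        refine hb.trans ?_
        rw [singleton_subset_iff]
        exact hyW.1
    refine hno ⟨y, hyW.2, ⟨w, hy⟩, by rw [← h10]; exact h8, ?_⟩
    rw [← h9]
    exact ⟨h.g.mono sdiff_subset, h.p.sdiff h.g _, h.two.mono sdiff_subset, j, by omega, by omega⟩
  omega

/-- (3.3) a target on an edge has at most one pendant. -/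
lemma T0.pd_le (h : T0 N W) {v : V} (hv : (N v ∩ W).card = 2) {z : X} (hz : z ∈ N v) :
    (pd N W z).card ≤ 1 := by
  by_contra hlt
  push Not at hlt
  have hne : (N v ∩ W).Nonempty := card_pos.1 (by omega)
  have h1 := (h.move hne).1
  have h2 : insert v (pd N W z) ⊆ dead N W (N v) := by
    intro w hw
    rw [mem_insert] at hw
    rcases hw with rfl | hw
    · exact self_mem_dead hne
    · rw [mem_pd] at hw
      rw [mem_dead, hw]
      exact ⟨by simp, by simpa using hz⟩
  have h3 : v ∉ pd N W z := by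
    rw [mem_pd]
    intro h4
    rw [h4] at hv
    simp at hv
  have h4 := card_le_card h2
  rw [card_insert_of_notMem h3] at h4
  omega

/-- (3.3) no edge has a pendant at both ends. -/
lemma T0.no_adj (h : T0 N W) {v p q : V} {z z' : X} (hv : N v ∩ W = {z, z'}) (hne : z ≠ z')
    (hp : N p ∩ W = {z}) (hq : N q ∩ W = {z'}) : False := by
  have hc : (N v ∩ W).card = 2 := by rw [hv, card_pair hne]
  have hn : (N v ∩ W).Nonempty := card_pos.1 (by omega)
  have h1 := (h.move hn).1
  have hz : z ∈ N v ∧ z ∈ W := by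
    have : z ∈ N v ∩ W := by rw [hv]; simp
    exact mem_inter.1 this
  have hz' : z' ∈ N v ∧ z' ∈ W := by
    have : z' ∈ N v ∩ W := by rw [hv]; simp
    exact mem_inter.1 this
  have hvp : v ≠ p := by rintro rfl; rw [hp] at hc; simp at hc
  have hvq : v ≠ q := by rintro rfl; rw [hq] at hc; simp at hc
  have hpq : p ≠ q := by
    rintro rfl
    rw [hp] at hq
    exact hne (by simpa using hq)
  have h2 : ({v, p, q} : Finset V) ⊆ dead N W (N v) := by
    intro w hw
    rw [mem_insert, mem_insert, mem_singleton] at hw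
    rcases hw with rfl | rfl | rfl
    · exact self_mem_dead hn
    · rw [mem_dead, hp]
      exact ⟨by simp, by simpa using hz.1⟩
    · rw [mem_dead, hq]
      exact ⟨by simp, by simpa using hz'.1⟩
  have h3 := card_le_card h2
  have h4 : ({v, p, q} : Finset V).card = 3 := by
    rw [card_insert_of_notMem (by simp [hvp, hvq]), card_pair hpq]
  omega

/-- (3.3) a target with two pendants is a component, and has exactly two players. -/
lemma T0.single (h : T0 N W) {z : X} (hz : 2 ≤ (pd N W z).card) :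
    Closed N W {z} ∧ (univ.filter fun v => z ∈ N v) = pd N W z ∧ (pd N W z).card = 2 := by
  obtain ⟨p, hp⟩ := card_pos.1 (by omega : 0 < (pd N W z).card)
  rw [mem_pd] at hp
  have hzp := mem_of_pd hp
  have hno : ∀ v, z ∈ N v → N v ∩ W = {z} := by
    intro v hv
    have h1 : z ∈ N v ∩ W := mem_inter.2 ⟨hv, hzp.2⟩
    have h2 := h.g v
    have h3 : (N v ∩ W).card ≠ 2 := by
      intro h4
      have := h.pd_le h4 hv
      omega
    have h4 := card_pos.2 ⟨z, h1⟩
    obtain ⟨y, hy⟩ := card_eq_one.1 (by omega : (N v ∩ W).card = 1)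
    rw [hy, mem_singleton] at h1
    rw [hy, h1]
  have hcl : Closed N W {z} := by
    refine ⟨by simpa using hzp.2, fun v hv => ?_⟩
    obtain ⟨x, hx⟩ := hv
    rw [mem_inter, mem_singleton] at hx
    rw [hno v (hx.2 ▸ hx.1)]
  have heq : (univ.filter fun v => z ∈ N v) = pd N W z := by
    ext v
    rw [mem_filter, mem_pd]
    exact ⟨fun h => hno v h.2, fun h => ⟨mem_univ _, (mem_of_pd h).1⟩⟩
  refine ⟨hcl, heq, ?_⟩
  have hmod := h.closed_mod hcl
  have hal : alive N {z} = pd N W z := by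
    rw [← heq]
    ext v
    rw [mem_alive, mem_filter]
    constructor
    · rintro ⟨x, hx⟩
      rw [mem_inter, mem_singleton] at hx
      exact ⟨mem_univ _, hx.2 ▸ hx.1⟩
    · rintro ⟨_, hv⟩
      exact ⟨z, by simp [hv]⟩
  unfold P at hmod
  rw [hal, card_singleton] at hmod
  have hmv := (h.move (v := p) (by rw [hp]; simp)).1
  have hde : dead N W (N p) = pd N W z := by
    rw [← dead_single hzp.2]
    ext v
    rw [mem_dead, mem_dead]
    constructor
    · rintro ⟨ha, hb⟩
      refine ⟨ha, ?_⟩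
      rw [← hp]
      exact subset_inter hb inter_subset_right
    · rintro ⟨ha, hb⟩
      refine ⟨ha, hb.trans ?_⟩
      rw [singleton_subset_iff]
      exact hzp.1
  rw [hde, hp, card_singleton] at hmv
  omega

lemma T0.pd_le_two (h : T0 N W) (z : X) : (pd N W z).card ≤ 2 := by
  by_contra hlt
  push Not at hlt
  have := (h.single (z := z) (by omega)).2.2
  omega

/-! ## Truly bad graphs -/

/-- Truly bad graphs (no heavy targets). -/
structure BadK (N : V → Finset X) (K : Finset X) : Prop where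
  conn : Conn N K
  gr : ∀ v, (N v ∩ K).Nonempty → (N v ∩ K).card = 2
  two : Two N K
  ex : ∃ j, P N K = 6 * j + 5 ∧ ns N K = 4 * j + 4

lemma World.cover (hW : World N Hv) (x : X) : ∃ v, x ∈ N v := by
  by_cases hx : x ∈ Hv
  · have h := hW.one x hx
    have : 0 < (univ.filter fun v => x ∈ N v).card := by omega
    obtain ⟨v, hv⟩ := card_pos.1 this
    exact ⟨v, (mem_filter.1 hv).2⟩
  · have h := hW.two x hx
    have : 0 < (univ.filter fun v => x ∈ N v).card := by omega
    obtain ⟨v, hv⟩ := card_pos.1 this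
    exact ⟨v, (mem_filter.1 hv).2⟩

lemma two_of_world (hW : World N Hv) (h : Disjoint K Hv) : Two N K :=
  fun x hx => hW.two x (fun h' => disjoint_left.1 h hx h')

lemma badK_of_bad (hW : World N Hv) (h : Bad N Hv K) : BadK N K := by
  obtain ⟨h1, h2, h3, h4⟩ := h
  refine ⟨h1, h2.2, two_of_world hW h2.1, ?_⟩
  rw [Phi_eq_P h2.1] at h3 h4
  exact ⟨P N K / 6, by omega, by omega⟩

lemma gpos_of_gr (h : ∀ v, (N v ∩ K).Nonempty → (N v ∩ K).card = 2) : GPos N K := by
  intro v
  rcases (N v ∩ K).eq_empty_or_nonempty with h1 | h1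
  · rw [h1]; simp
  · rw [h v h1]

/-- Lemma P for `K \ B`. -/
lemma graphP (hgr : ∀ v, (N v ∩ K).Nonempty → (N v ∩ K).card = 2) (hc : Conn N K)
    (htwo : Two N K) (hB : (K ∩ B).Nonempty) :
    3 * ns N (K \ B) + rr N (K \ B) ≤ 2 * P N (K \ B) :=
  lemmaP (htwo.mono sdiff_subset) ((gpos_of_gr hgr).mono sdiff_subset) (pend_of_graph hgr hc hB)

/-- Closed connected graphs: the values. -/
lemma graph_ns (hgr : ∀ v, (N v ∩ K).Nonempty → (N v ∩ K).card = 2) (hc : Conn N K)
    (htwo : Two N K) :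
    3 * ns N K ≤ 2 * P N K + 2 ∧ (P N K % 6 = 2 → 3 * ns N K + 4 ≤ 2 * P N K) ∧
    ((P N K % 6 = 5 → 3 * ns N K ≠ 2 * (P N K + 1)) → 3 * ns N K ≤ 2 * P N K) := by
  have hstep : ∀ v, (N v ∩ K).Nonempty → 3 * ns N (K \ N v) + 6 ≤ 2 * P N K := by
    intro v hv
    have h1 := graphP (B := N v) hgr hc htwo (by rwa [inter_comm])
    have h2 := P_move (N := N) K v
    have h3 := hgr v hv
    have h4 := card_pos.2 ⟨v, self_mem_dead hv⟩
    omega
  obtain ⟨v0, hv0⟩ : ∃ v, (N v ∩ K).Nonempty := by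
    obtain ⟨x, hx⟩ := hc.1
    have h := htwo x hx
    obtain ⟨v, hv⟩ := card_pos.1 (by omega : 0 < (univ.filter fun v => x ∈ N v).card)
    exact ⟨v, x, mem_inter.2 ⟨(mem_filter.1 hv).2, hx⟩⟩
  have h0 := hstep v0 hv0
  have key : ∀ m, 2 * P N K ≤ 3 * m + 5 → (m % 2 = 0) →
      (m % 4 = 2 → 2 * P N K ≤ 3 * m + 2) → ns N K ≤ m := by
    intro m h1 h2 h3
    refine ns_le_of_loc ⟨fun v hv => ?_, fun h => by omega, fun h => ?_⟩
    · have := hstep v hv
      omega
    · exact ⟨v0, hv0, by have := h3 h; omega⟩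
  have hmod : P N K % 6 < 6 := Nat.mod_lt _ (by norm_num)
  obtain ⟨j, r, hjr, hr⟩ : ∃ j r, P N K = 6 * j + r ∧ r < 6 :=
    ⟨P N K / 6, P N K % 6, by omega, hmod⟩

  have hcases : r = 0 ∨ r = 1 ∨ r = 2 ∨ r = 3 ∨ r = 4 ∨ r = 5 := by omega
  rcases hcases with rfl | rfl | rfl | rfl | rfl | rfl
  · have := key (4 * j) (by omega) (by omega) (by omega)
    omega
  · have := key (4 * j) (by omega) (by omega) (by omega)
    omega
  · have := key (4 * j) (by omega) (by omega) (by omega)
    omega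
  · have := key (4 * j + 2) (by omega) (by omega) (by omega)
    omega
  · have := key (4 * j + 2) (by omega) (by omega) (by omega)
    omega
  · have := key (4 * j + 4) (by omega) (by omega) (by omega)
    omega

/-- (4.1) -/
lemma BadK.t2 (h : BadK N K) {v : V} (hv : (N v ∩ K).Nonempty) :
    T2 N (K \ N v) ∧ (dead N K (N v)).card = 1 := by
  obtain ⟨j, h1, h2⟩ := h.ex
  have hstep : ∀ v, (N v ∩ K).Nonempty →
      3 * ns N (K \ N v) + rr N (K \ N v) + 2 * (dead N K (N v)).card ≤ 12 * j + 6 ∧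
      P N (K \ N v) + (dead N K (N v)).card = 6 * j + 3 ∧ 1 ≤ (dead N K (N v)).card := by
    intro v hv
    have h3 := graphP (B := N v) h.gr h.conn h.two (by rwa [inter_comm])
    have h4 := P_move (N := N) K v
    have h5 := h.gr v hv
    have h6 := card_pos.2 ⟨v, self_mem_dead hv⟩
    omega
  have hall : ∀ v, (N v ∩ K).Nonempty → 4 * j + 1 ≤ ns N (K \ N v) := by
    intro v hv
    by_contra hlt
    push Not at hlt
    have : ns N K ≤ 4 * j + 2 := by
      refine ns_le_of_loc ⟨fun w hw => ?_, fun h => by omega, fun _ => ⟨v, hv, by omega⟩⟩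
      have := hstep w hw
      omega
    omega
  have h3 := hstep v hv
  have h4 := hall v hv
  have h5 := rr_mod (N := N) (K \ N v).card (K \ N v) le_rfl
  refine ⟨⟨(gpos_of_gr h.gr).mono sdiff_subset, pend_of_graph h.gr h.conn
    (by rwa [inter_comm]), h.two.mono sdiff_subset, j, by omega, by omega⟩, by omega⟩

/-- `K` is simple. -/
lemma BadK.simple (h : BadK N K) {v w : V} (hv : (N v ∩ K).Nonempty)
    (hvw : N w ∩ K = N v ∩ K) : w = v := by
  have h1 := (h.t2 hv).2
  obtain ⟨u, hu⟩ := card_eq_one.1 h1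
  have h2 : v ∈ dead N K (N v) := self_mem_dead hv
  have h3 : w ∈ dead N K (N v) := by
    rw [mem_dead, hvw]
    exact ⟨hv, inter_subset_left⟩
  rw [hu, mem_singleton] at h2 h3
  rw [h2, h3]

lemma dead_eq_J : dead N K B = J N K B := rfl

lemma P_sdiff_sub (hB : B ⊆ K) : P N (K \ B) + (B.card + (J N K B).card) = P N K := by
  have := P_sdiff (N := N) K B
  rwa [inter_eq_right.2 hB] at this

/-- (4.2) -/
lemma BadK.rr_le (hN : ∀ x, ∃ v, x ∈ N v) (h : BadK N K) (hB : B ⊆ K) (hne : B.Nonempty) :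
    rr N (K \ B) + 2 * (J N K B).card + 2 ≤ 4 * B.card := by
  obtain ⟨j, h1, h2⟩ := h.ex
  have h3 := graphP (B := B) h.gr h.conn h.two (by rwa [inter_eq_right.2 hB])
  have h4 := P_sdiff_sub (N := N) hB
  have h5 := ns_extract hN K B
  omega

/-- (4.3) -/
lemma BadK.rr_le' (hN : ∀ x, ∃ v, x ∈ N v) (h : BadK N K) (hB : B ⊆ K) {v : V}
    (hv : v ∈ J N K B) : rr N (K \ B) + 2 * (J N K B).card + 5 ≤ 4 * B.card := by
  rw [← dead_eq_J, mem_dead] at hv
  obtain ⟨j, h1, h2⟩ := h.ex
  have hne : B.Nonempty := hv.1.mono hv.2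
  have h3 := graphP (B := B) h.gr h.conn h.two (by rwa [inter_eq_right.2 hB])
  have h4 := P_sdiff_sub (N := N) hB
  obtain ⟨j', h5, h6⟩ := (h.t2 hv.1).1.ex
  have h7 := P_move (N := N) K v
  have h8 := (h.t2 hv.1).2
  have h9 := h.gr v hv.1
  have h10 := ns_extract hN (K \ N v) (B \ N v)
  have h11 : (K \ N v) \ (B \ N v) = K \ B := by
    ext x
    simp only [mem_sdiff, not_and, not_not]
    constructor
    · rintro ⟨⟨ha, hb⟩, hc⟩
      exact ⟨ha, fun hxB => hb (hc hxB)⟩
    · rintro ⟨ha, hb⟩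
      refine ⟨⟨ha, fun hx => hb (hv.2 (mem_inter.2 ⟨hx, ha⟩))⟩, fun hx => absurd hx hb⟩
  have h12 : (B \ N v).card + 2 = B.card := by
    have ha : (B \ N v).card + (B ∩ N v).card = B.card := card_sdiff_add_card_inter B (N v)
    have hb : B ∩ N v = N v ∩ K := by
      ext x
      rw [mem_inter, mem_inter]
      exact ⟨fun hx => ⟨hx.2, hB hx.1⟩, fun hx => ⟨hv.2 (mem_inter.2 hx), hx.1⟩⟩
    rw [hb, h9] at ha
    omega
  rw [h11] at h10
  omega

/-- `e(B) ≤ 2|B| - 3`. -/
lemma BadK.sparse3 (hN : ∀ x, ∃ v, x ∈ N v) (h : BadK N K) (hB : B ⊆ K) (h2 : 2 ≤ B.card) :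
    (J N K B).card + 3 ≤ 2 * B.card := by
  rcases (J N K B).eq_empty_or_nonempty with h1 | ⟨v, hv⟩
  · rw [h1, card_empty]; omega
  · have := h.rr_le' hN hB hv
    omega

end Pool.Agent.TDG.H71
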