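import Mathlib
import Pool.Agent.Helper29_TDG.Stmts
import Pool.Agent.Helper53_TDG.Comp
import Pool.Agent.Helper71_TDG.T02

/-!
# TDG: the facts on bad graphs used by the main proof
-/

set_option linter.unusedSectionVars false

namespace Pool.Agent.TDG.H71

open Finset Helper77.TDG Pool.Agent.TDG

section

variable {V X : Type*} [Fintype V] [DecidableEq V] [DecidableEq X]
variable {N : V → Finset X} {Hv U W K D B C : Finset X}

lemma rho2_eq (p : ℕ) : rho2 p = (r2 p : ℤ) := by
  unfold rho2 r2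
  split_ifs <;> rfl

/-- A connected position with a player with one target. -/
lemma pend_of_conn (hc : Conn N K) {v : V} (hv : (N v ∩ K).card = 1) : Pend N K := by
  intro D hD hDc
  have hDK := hc.2 D hD hDc
  obtain ⟨z, hz⟩ := card_eq_one.1 hv
  have hzK : z ∈ N v ∩ K := by rw [hz]; simp
  exact ⟨z, by rw [hDK]; exact (mem_inter.1 hzK).2, v, hz⟩

/-- Nothing bad remains. -/
lemma bc_empty_of_bad (h : Bad N Hv C) (hB : B ⊆ C) (hne : B.Nonempty) : bc N Hv C B = ∅ := by
  rw [eq_empty_iff_forall_notMem]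
  intro K hK
  have hK2 : Closed N (C \ B) K ∧ Bad N Hv K := Pool.Agent.TDG.mem_bc.1 hK
  obtain ⟨hcl, hb⟩ := hK2
  have hp : Pend N (C \ B) := pend_of_graph h.2.1.2 h.1 (by rwa [inter_eq_right.2 hB])
  obtain ⟨z, hz, v, hv⟩ := hp K hb.1.1 hcl
  have h1 : z ∈ N v := by
    have : z ∈ N v ∩ (C \ B) := by rw [hv]; simp
    exact (mem_inter.1 this).1
  have h2 : (N v ∩ K).Nonempty := ⟨z, mem_inter.2 ⟨h1, hz⟩⟩
  have h3 := hb.2.1.2 v h2
  rw [hcl.inter_eq71 h2, hv] at h3
  simp at h3

lemma rs_eq_rr (h : Disjoint C Hv) (hb : bc N Hv C B = ∅) : rs N Hv C B = (rr N (C \ B) : ℤ) := by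
  classical
  unfold rs rr
  have hnb : nb N Hv C B = comps N (C \ B) := by
    unfold nb
    ext K
    constructor
    · intro hK
      exact (mem_filter.1 hK).1
    · intro hK
      refine mem_filter.2 ⟨hK, fun hbad => ?_⟩
      have : K ∈ bc N Hv C B := by
        unfold bc
        exact mem_filter.2 ⟨hK, hbad⟩
      rw [hb] at this
      simp at this
  rw [hnb]
  push_cast
  refine sum_congr rfl fun K hK => ?_
  have hKC : K ⊆ C := (Pool.Agent.TDG.comps_subset hK).trans sdiff_subset
  rw [rho2_eq, Phi_eq_P (h.mono_left hKC)]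

end

/-- Lemma P. -/
theorem lp : LPStmt := by
  intro V X _ _ _ N Hv K hW hc hd h2 ⟨v, hv⟩
  rw [Phi_eq_P hd]
  have := lemmaP (W := K) (fun x hx => hW.two x (fun h' => disjoint_left.1 hd hx h')) h2
    (pend_of_conn hc hv)
  omega

/-- Facts on bad graphs. -/
theorem bf : BFStmt := by
  intro V X _ _ _ N Hv C B hW hbad hB hne
  have hb := bc_empty_of_bad hbad hB hne
  have hd : Disjoint C Hv := hbad.2.1.1
  have hBC : B ⊆ C \ Hv := by
    rw [sdiff_eq_self_of_disjoint hd]
    exact hB
  have hf := GG_formula (N := N) (Hv := Hv) hBC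
  have hg := gv_bad hbad
  have hk := badK_of_bad hW hbad
  have hr := hk.rr_le (World.cover hW) hB hne
  have hs := rs_eq_rr (N := N) (B := B) hd hb
  have hsf : sf N Hv C B = - ph N C B := by
    unfold sf
    rw [hb]
    simp
  rw [hs, hsf] at hf
  refine ⟨?_, ?_, hb⟩
  · unfold ph at hf
    omega
  · unfold ph
    rcases (J N C B).eq_empty_or_nonempty with h1 | ⟨v, hv⟩
    · rw [h1, card_empty]
      have := card_pos.2 hne
      omega
    · have := hk.rr_le' (World.cover hW) hB hv
      omega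

/-- Graph positions which are not bad. -/
theorem nbs : NBStmt := by
  intro V X _ _ _ N Hv K hW hc hgr
  rw [Phi_eq_P hgr.1]
  have := graph_ns hgr.2 hc (two_of_world hW hgr.1)
  exact ⟨fun h => by omega, fun h => by omega⟩

end Pool.Agent.TDG.H71
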