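import Mathlib
import Pool.Agent.Helper71_TDG.T02

/-!
# TDG: truly bad graphs: sparsity, no triangle, at least five targets, four-cycle rule
-/

set_option linter.unusedSectionVars false
set_option linter.unusedVariables false

namespace Pool.Agent.TDG.H71

open Finset Helper77.TDG Pool.Agent.TDG

variable {V X : Type*} [Fintype V] [DecidableEq V] [DecidableEq X]
variable {N : V → Finset X} {Hv U W K D B : Finset X}

lemma mem_pair_left {S : Finset X} {v : V} {a b : X} (h : N v ∩ S = {a, b}) : a ∈ N v ∧ a ∈ S := by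
  have : a ∈ N v ∩ S := by rw [h]; simp
  exact mem_inter.1 this

lemma mem_pair_right {S : Finset X} {v : V} {a b : X} (h : N v ∩ S = {a, b}) :
    b ∈ N v ∧ b ∈ S := by
  have : b ∈ N v ∩ S := by rw [h]; simp
  exact mem_inter.1 this

lemma mem_of_pair {S : Finset X} {v : V} {a b x : X} (h : N v ∩ S = {a, b}) (hx : x ∈ N v)
    (hxS : x ∈ S) : x = a ∨ x = b := by
  have : x ∈ N v ∩ S := mem_inter.2 ⟨hx, hxS⟩
  rw [h] at this
  simpa using this

/-- After the removal of one end of the edge `{z, c}` the other end has a pendant. -/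
lemma pendant_of_edge {S S' : Finset X} {v : V} {z c : X} (h : N v ∩ S = {z, c})
    (hS : S' ⊆ S) (hc : c ∈ S') (hz : z ∉ S') : N v ∩ S' = {c} := by
  ext x
  rw [mem_inter, mem_singleton]
  constructor
  · rintro ⟨h1, h2⟩
    rcases mem_of_pair h h1 (hS h2) with rfl | rfl
    · exact absurd h2 hz
    · rfl
  · rintro rfl
    exact ⟨(mem_pair_right h).1, hc⟩

/-- The players of `b` in a triangle of which `z` ... -/
lemma BadK.deg_of_tri (h : BadK N K) {v p q : V} {a b z : X} (hab : a ≠ b) (haz : a ≠ z)
    (hbz : b ≠ z) (hv : N v ∩ K = {a, b}) (hp : N p ∩ K = {z, a}) (hq : N q ∩ K = {z, b}) :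
    (univ.filter fun w => b ∈ N w) = {v, q} := by
  have hpn : (N p ∩ K).Nonempty := by rw [hp]; simp
  have hT2 := (h.t2 hpn).1
  have hbK : b ∈ K := (mem_pair_right hv).2
  have hbp : b ∉ N p := by
    intro hb
    rcases mem_of_pair hp hb hbK with h1 | h1
    · exact hbz h1
    · exact hab h1.symm
  have hbU : b ∈ K \ N p := mem_sdiff.2 ⟨hbK, hbp⟩
  have hv' : N v ∩ (K \ N p) = {b} := by
    refine pendant_of_edge hv sdiff_subset hbU ?_
    intro ha
    exact (mem_sdiff.1 ha).2 (mem_pair_right hp).1
  have hq' : N q ∩ (K \ N p) = {b} := by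
    refine pendant_of_edge hq sdiff_subset hbU ?_
    intro ha
    exact (mem_sdiff.1 ha).2 (mem_pair_left hp).1
  have hvq : v ≠ q := by
    rintro rfl
    rw [hv] at hq
    have : a ∈ ({z, b} : Finset X) := by rw [← hq]; simp
    rw [mem_insert, mem_singleton] at this
    rcases this with h1 | h1
    · exact haz h1
    · exact hab h1
  obtain ⟨y, hyU, _, hy1, hT0⟩ := hT2.answer
  have hsub : ({v, q} : Finset V) ⊆ pd N (K \ N p) b := by
    intro w hw
    rw [mem_insert, mem_singleton] at hw
    rw [mem_pd]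
    rcases hw with rfl | rfl
    · exact hv'
    · exact hq'
  have hyb : y ≠ b := by
    rintro rfl
    have := card_le_card hsub
    rw [card_pair hvq] at this
    omega
  have hb' : b ∈ (K \ N p) \ {y} := by
    rw [mem_sdiff, mem_singleton]
    exact ⟨hbU, fun h => hyb h.symm⟩
  have hsub' : ({v, q} : Finset V) ⊆ pd N ((K \ N p) \ {y}) b := by
    intro w hw
    rw [mem_insert, mem_singleton] at hw
    rw [mem_pd]
    rcases hw with rfl | rfl
    · exact pd_mono hv' sdiff_subset hb'
    · exact pd_mono hq' sdiff_subset hb'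
  have h2 : 2 ≤ (pd N ((K \ N p) \ {y}) b).card := by
    have := card_le_card hsub'
    rwa [card_pair hvq] at this
  obtain ⟨_, h3, h4⟩ := hT0.single h2
  rw [h3]
  symm
  apply eq_of_subset_of_card_le hsub'
  rw [h4, card_pair hvq]

lemma BadK.tri_false (h : BadK N K) {v p q : V} {a b z : X} (hab : a ≠ b) (haz : a ≠ z)
    (hbz : b ≠ z) (hv : N v ∩ K = {a, b}) (hp : N p ∩ K = {z, a}) (hq : N q ∩ K = {z, b})
    (hz : (univ.filter fun w => z ∈ N w) = {p, q}) : False := by
  have hb := h.deg_of_tri hab haz hbz hv hp hq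
  have ha := h.deg_of_tri (v := v) (p := q) (q := p) (a := b) (b := a) (z := z) hab.symm hbz haz
    (by rw [hv, pair_comm]) hq hp
  have haK := (mem_pair_left hv).2
  have hbK := (mem_pair_right hv).2
  have hzK := (mem_pair_left hp).2
  have key : ∀ w, (N w ∩ ({a, b, z} : Finset X)).Nonempty → w = v ∨ w = p ∨ w = q := by
    intro w hw
    obtain ⟨x, hx⟩ := hw
    rw [mem_inter, mem_insert, mem_insert, mem_singleton] at hx
    obtain ⟨hxw, hx⟩ := hx
    rcases hx with rfl | rfl | rfl
    · have : w ∈ (univ.filter fun w => x ∈ N w) := by simpa using hxw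
      rw [ha] at this
      simp only [mem_insert, mem_singleton] at this
      tauto
    · have : w ∈ (univ.filter fun w => x ∈ N w) := by simpa using hxw
      rw [hb] at this
      simp only [mem_insert, mem_singleton] at this
      tauto
    · have : w ∈ (univ.filter fun w => x ∈ N w) := by simpa using hxw
      rw [hz] at this
      simp only [mem_insert, mem_singleton] at this
      tauto
  have hcl : Closed N K {a, b, z} := by
    refine ⟨?_, fun w hw => ?_⟩
    · intro x hx
      rw [mem_insert, mem_insert, mem_singleton] at hx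
      rcases hx with rfl | rfl | rfl <;> assumption
    · rcases key w hw with rfl | rfl | rfl
      · rw [hv]; intro x hx; simp only [mem_insert, mem_singleton] at hx ⊢; tauto
      · rw [hp]; intro x hx; simp only [mem_insert, mem_singleton] at hx ⊢; tauto
      · rw [hq]; intro x hx; simp only [mem_insert, mem_singleton] at hx ⊢; tauto
  have hK := h.conn.2 _ (by simp) hcl
  have hvp : v ≠ p := by
    rintro rfl
    rw [hv] at hp
    have : b ∈ ({z, a} : Finset X) := by rw [← hp]; simp
    simp only [mem_insert, mem_singleton] at this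
    rcases this with h1 | h1
    · exact hbz h1
    · exact hab h1.symm
  have hvq : v ≠ q := by
    rintro rfl
    rw [hv] at hq
    have : a ∈ ({z, b} : Finset X) := by rw [← hq]; simp
    simp only [mem_insert, mem_singleton] at this
    rcases this with h1 | h1
    · exact haz h1
    · exact hab h1
  have hpq : p ≠ q := by
    rintro rfl
    rw [hp] at hq
    have : a ∈ ({z, b} : Finset X) := by rw [← hq]; simp
    simp only [mem_insert, mem_singleton] at this
    rcases this with h1 | h1
    · exact haz h1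
    · exact hab h1
  have hal : alive N K = {v, p, q} := by
    ext w
    rw [mem_alive, mem_insert, mem_insert, mem_singleton]
    constructor
    · intro hw
      rw [← hK] at hw
      exact key w hw
    · rintro (rfl | rfl | rfl)
      · rw [hv]; simp
      · rw [hp]; simp
      · rw [hq]; simp
  obtain ⟨j, hj, _⟩ := h.ex
  unfold P at hj
  have hc1 : ({v, p, q} : Finset V).card = 3 := by
    rw [card_insert_of_notMem (by simp [hvp, hvq]), card_pair hpq]
  have hc2 : ({a, b, z} : Finset X).card = 3 := by
    rw [card_insert_of_notMem (by simp [hab, haz]), card_pair hbz]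
  rw [hal, hc1, ← hK, hc2] at hj
  omega

/-- `e(B) ≤ 2|B| - 4` for at least three targets. -/
theorem BadK.sparse4 (hN : ∀ x, ∃ v, x ∈ N v) (h : BadK N K) (hB : B ⊆ K) (h3 : 3 ≤ B.card) :
    (J N K B).card + 4 ≤ 2 * B.card := by
  by_contra hcon
  push Not at hcon
  have hs3 := h.sparse3 hN hB (by omega)
  have hJ : (J N K B).card + 3 = 2 * B.card := by omega
  obtain ⟨v, hv⟩ : (J N K B).Nonempty := card_pos.1 (by omega)
  have hvd := hv
  rw [← dead_eq_J, mem_dead] at hvd
  have hvc := h.gr v hvd.1
  obtain ⟨a, b, hab, hvab⟩ := card_eq_two.1 hvc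
  have hT2 := (h.t2 hvd.1).1
  obtain ⟨y, hyU, _, hy1, hT0⟩ := hT2.answer
  obtain ⟨j, hj1, hj2⟩ := hT0.ex
  have hPK : P N K = 6 * j + 5 := by
    have h1 := P_move (N := N) K v
    have h2 := (h.t2 hvd.1).2
    have h4 := P_sdiff (N := N) (K \ N v) {y}
    rw [dead_single hyU, hy1, inter_singleton_of_mem hyU, card_singleton] at h4
    omega
  have hyK := mem_sdiff.1 hyU
  have hQc : (B \ N v).card + 2 = B.card := by
    have ha : (B \ N v).card + (B ∩ N v).card = B.card := card_sdiff_add_card_inter B (N v)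
    have hb : B ∩ N v = N v ∩ K := by
      ext x
      rw [mem_inter, mem_inter]
      exact ⟨fun hx => ⟨hx.2, hB hx.1⟩, fun hx => ⟨hvd.2 (mem_inter.2 hx), hx.1⟩⟩
    rw [hb, hvc] at ha
    omega
  have hNB : ∀ x ∈ K, x ∈ N v → x ∈ B := fun x hx hxv => hvd.2 (mem_inter.2 ⟨hxv, hx⟩)
  by_cases hyB : y ∈ B
  · -- first case
    have h1 := ns_extract hN ((K \ N v) \ {y}) ((B \ N v) \ {y})
    have h2 : ((K \ N v) \ {y}) \ ((B \ N v) \ {y}) = K \ B := by
      ext x
      simp only [mem_sdiff, mem_singleton, not_and, not_not]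
      constructor
      · rintro ⟨⟨⟨ha, hb⟩, hc⟩, hd⟩
        exact ⟨ha, fun hxB => hc (hd ⟨hxB, hb⟩)⟩
      · rintro ⟨ha, hb⟩
        refine ⟨⟨⟨ha, fun hx => hb (hNB x ha hx)⟩, fun hx => hb (hx ▸ hyB)⟩, fun hx => ?_⟩
        exact absurd hx.1 hb
    rw [h2] at h1
    have h4 : ((B \ N v) \ {y}).card + 1 = (B \ N v).card := by
      have : y ∈ B \ N v := mem_sdiff.2 ⟨hyB, hyK.2⟩
      rw [sdiff_singleton_eq_erase, card_erase_of_mem this]
      have := card_pos.2 ⟨y, this⟩
      omega
    have hBne : (K ∩ B).Nonempty := by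
      rw [inter_eq_right.2 hB]
      exact ⟨y, hyB⟩
    have h5 := graphP (B := B) h.gr h.conn h.two hBne
    have h6 := P_sdiff_sub (N := N) hB
    omega
  · -- second case
    set Y : Finset X := (K \ N v) \ {y} with hY
    set Q : Finset X := B \ N v with hQ
    have hmemY : ∀ x, x ∈ Y ↔ (x ∈ K ∧ x ∉ N v) ∧ x ≠ y := by
      intro x; rw [hY, mem_sdiff, mem_sdiff, mem_singleton]
    have hmemQ : ∀ x, x ∈ Q ↔ x ∈ B ∧ x ∉ N v := by
      intro x; rw [hQ, mem_sdiff]
    have hYK : Y ⊆ K := fun x hx => ((hmemY x).1 hx).1.1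
    have hQY : Q ⊆ Y := by
      intro x hx
      rw [hmemQ] at hx
      rw [hmemY]
      exact ⟨⟨hB hx.1, hx.2⟩, fun h => hyB (h ▸ hx.1)⟩
    have hJD : (J N K B).erase v ⊆ dead N Y Q := by
      intro w hw
      rw [mem_erase, ← dead_eq_J, mem_dead] at hw
      obtain ⟨hwv, hwn, hwB⟩ := hw
      rw [mem_dead]
      constructor
      · by_contra hno
        rw [not_nonempty_iff_eq_empty] at hno
        have hsub : N w ∩ K ⊆ N v ∩ K := by
          intro x hx
          have hx' := mem_inter.1 hx
          rw [mem_inter]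
          refine ⟨?_, hx'.2⟩
          by_contra hxv
          have : x ∈ N w ∩ Y := by
            rw [mem_inter, hmemY]
            exact ⟨hx'.1, ⟨hx'.2, hxv⟩, fun h => hyB (h ▸ hwB hx)⟩
          rw [hno] at this
          simp at this
        have heq : N w ∩ K = N v ∩ K := by
          refine eq_of_subset_of_card_le hsub ?_
          rw [hvc, h.gr w hwn]
        exact hwv (h.simple hvd.1 heq)
      · intro x hx
        rw [mem_inter, hmemY] at hx
        rw [hmemQ]
        exact ⟨hwB (mem_inter.2 ⟨hx.1, hx.2.1.1⟩), hx.2.1.2⟩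
    have hJe : ((J N K B).erase v).card + 1 = (J N K B).card := by
      rw [card_erase_of_mem hv]
      omega
    have hPYQ := P_sdiff (N := N) Y Q
    rw [inter_eq_right.2 hQY] at hPYQ
    have hlQ := lemmaP (W := Y \ Q) (hT0.two.mono sdiff_subset) (hT0.g.mono sdiff_subset)
      (hT0.p.sdiff hT0.g Q)
    have hex := ns_extract hN Y Q
    have hDle := card_le_card hJD
    have hDc : (dead N Y Q).card = 2 * Q.card := by omega
    have hDeq : (J N K B).erase v = dead N Y Q := by
      refine eq_of_subset_of_card_le hJD ?_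
      omega
    -- (a)
    have hA : ∀ e0 ∈ dead N Y Q, (N e0 ∩ Y).card = 2 → ∀ z ∈ N e0 ∩ Y, ∀ p, N p ∩ Y ≠ {z} := by
      intro e0 he0 he0c z hz p hp
      rw [mem_dead] at he0
      have hmv := hT0.move he0.1
      have hsub : ({e0, p} : Finset V) ⊆ dead N Y (N e0) := by
        intro w hw
        rw [mem_insert, mem_singleton] at hw
        rcases hw with rfl | rfl
        · exact self_mem_dead he0.1
        · rw [mem_dead, hp]
          exact ⟨by simp, by simpa using (mem_inter.1 hz).1⟩
      have hne : e0 ≠ p := by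
        rintro rfl
        rw [hp] at he0c
        simp at he0c
      have h1 := card_le_card hsub
      rw [card_pair hne] at h1
      obtain ⟨i, hi1, hi2⟩ := (hmv.2 (by omega)).ex
      have h2 := P_move (N := N) Y e0
      have h3 := ns_extract hN (Y \ N e0) (Q \ N e0)
      have h4 : (Y \ N e0) \ (Q \ N e0) = Y \ Q := by
        ext x
        simp only [mem_sdiff, not_and, not_not]
        constructor
        · rintro ⟨⟨ha, hb⟩, hc⟩
          exact ⟨ha, fun hxQ => hb (hc hxQ)⟩
        · rintro ⟨ha, hb⟩
          refine ⟨⟨ha, fun hx => hb (he0.2 (mem_inter.2 ⟨hx, ha⟩))⟩, fun hx => absurd hx hb⟩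
      have h5 : (Q \ N e0).card + 2 = Q.card := by
        have ha : (Q \ N e0).card + (Q ∩ N e0).card = Q.card := card_sdiff_add_card_inter Q (N e0)
        have hb : Q ∩ N e0 = N e0 ∩ Y := by
          ext x
          rw [mem_inter, mem_inter]
          exact ⟨fun hx => ⟨hx.2, hQY hx.1⟩, fun hx => ⟨he0.2 (mem_inter.2 hx), hx.1⟩⟩
        rw [hb, he0c] at ha
        omega
      rw [h4] at h3
      omega
    -- counting
    set Q1 := Q.filter fun z => (pd N Y z).Nonempty with hQ1
    set Q0 := Q.filter fun z => ¬ (pd N Y z).Nonempty with hQ0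
    have hQ0K : Q0 ⊆ K := fun x hx => hYK (hQY (mem_filter.1 hx).1)
    have hcount : dead N Y Q ⊆ Q1.biUnion (pd N Y) ∪ J N K Q0 := by
      intro w hw
      have hw' := mem_dead.1 hw
      have hc2 := hT0.g w
      have hc0 := card_pos.2 hw'.1
      rw [mem_union]
      by_cases h1 : (N w ∩ Y).card = 1
      · left
        obtain ⟨z, hz⟩ := card_eq_one.1 h1
        rw [mem_biUnion]
        refine ⟨z, ?_, mem_pd.2 hz⟩
        rw [hQ1, mem_filter]
        refine ⟨hw'.2 (by rw [hz]; simp), w, mem_pd.2 hz⟩
      · right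
        have h2 : (N w ∩ Y).card = 2 := by omega
        have hwK : (N w ∩ K).Nonempty := hw'.1.mono (inter_subset_inter_left hYK)
        have heq : N w ∩ Y = N w ∩ K := by
          refine eq_of_subset_of_card_le (inter_subset_inter_left hYK) ?_
          rw [h.gr w hwK, h2]
        rw [← dead_eq_J, mem_dead]
        refine ⟨hwK, ?_⟩
        rw [← heq]
        intro x hx
        rw [hQ0, mem_filter]
        refine ⟨hw'.2 hx, ?_⟩
        rintro ⟨p, hp⟩
        exact hA w hw h2 x hx p (mem_pd.1 hp)
    have hc1 : (dead N Y Q).card ≤ ∑ z ∈ Q1, (pd N Y z).card + (J N K Q0).card := by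
      refine (card_le_card hcount).trans ((card_union_le _ _).trans ?_)
      exact Nat.add_le_add_right card_biUnion_le _
    have hcard : Q1.card + Q0.card = Q.card := card_filter_add_card_filter_not _
    have hsum2 : ∑ z ∈ Q1, (pd N Y z).card ≤ 2 * Q1.card := by
      have : ∑ z ∈ Q1, (pd N Y z).card ≤ ∑ z ∈ Q1, 2 := sum_le_sum fun z _ => hT0.pd_le_two z
      rw [sum_const, smul_eq_mul] at this
      omega
    have hQ0e : Q0 = ∅ := by
      by_contra hne
      have hpos := card_pos.2 (nonempty_iff_ne_empty.2 hne)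
      by_cases h1 : 2 ≤ Q0.card
      · have := h.sparse3 hN hQ0K h1
        omega
      · have hJ0 : J N K Q0 = ∅ := by
          rw [eq_empty_iff_forall_notMem]
          intro w hw
          rw [← dead_eq_J, mem_dead] at hw
          have h2 := h.gr w hw.1
          have h4 := card_le_card hw.2
          omega
        rw [hJ0, card_empty] at hc1
        omega
    have hQ1e : Q1 = Q := by
      rw [hQ0e, card_empty] at hcard
      exact eq_of_subset_of_card_le (filter_subset _ _) (by omega)
    have hJ0 : (J N K Q0).card = 0 := by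
      rw [hQ0e, card_eq_zero, eq_empty_iff_forall_notMem]
      intro w hw
      rw [← dead_eq_J, mem_dead] at hw
      have := hw.1.mono hw.2
      simp at this
    rw [hJ0, hQ1e] at hc1
    have hQpos : 0 < Q.card := by omega
    obtain ⟨z, hz⟩ := card_pos.1 hQpos
    have hz2 : (pd N Y z).card = 2 := by
      have h1 := hT0.pd_le_two z
      by_contra hne
      have h2 : (pd N Y z).card ≤ 1 := by omega
      have h4 := add_sum_erase Q (fun z => (pd N Y z).card) hz
      have h5 : ∑ x ∈ Q.erase z, (pd N Y x).card ≤ 2 * (Q.card - 1) := by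
        have : ∑ x ∈ Q.erase z, (pd N Y x).card ≤ ∑ x ∈ Q.erase z, 2 :=
          sum_le_sum fun z _ => hT0.pd_le_two z
        rw [sum_const, smul_eq_mul, card_erase_of_mem hz] at this
        omega
      omega
    obtain ⟨_, hzf, _⟩ := hT0.single (z := z) (by omega)
    obtain ⟨p1, p2, hp12, hpd⟩ := card_eq_two.1 hz2
    have hzY := hQY hz
    have hzK := hYK hzY
    -- the other ends
    have hother : ∀ p, N p ∩ Y = {z} → ∃ c, (c = a ∨ c = b) ∧ N p ∩ K = {z, c} := by
      intro p hp
      have hpn : (N p ∩ K).Nonempty := ⟨z, mem_inter.2 ⟨(mem_of_pd hp).1, hzK⟩⟩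
      have hpD : p ∈ dead N Y Q := by
        rw [mem_dead, hp]
        exact ⟨by simp, by simpa using hz⟩
      rw [← hDeq, mem_erase, ← dead_eq_J, mem_dead] at hpD
      obtain ⟨c, hcm, hcz⟩ := exists_mem_ne (by rw [h.gr p hpn]; norm_num : 1 < (N p ∩ K).card) z
      have hcK := mem_inter.1 hcm
      have hcB : c ∈ B := hpD.2.2 hcm
      have hcv : c ∈ N v := by
        by_contra hcv
        have : c ∈ N p ∩ Y := by
          rw [mem_inter, hmemY]
          exact ⟨hcK.1, ⟨hcK.2, hcv⟩, fun h => hyB (h ▸ hcB)⟩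
        rw [hp, mem_singleton] at this
        exact hcz this
      refine ⟨c, mem_of_pair hvab hcv hcK.2, ?_⟩
      symm
      refine eq_of_subset_of_card_le ?_ ?_
      · intro x hx
        rw [mem_insert, mem_singleton] at hx
        rcases hx with rfl | rfl
        · exact mem_inter.2 ⟨(mem_of_pd hp).1, hzK⟩
        · exact hcm
      · rw [h.gr p hpn, card_pair hcz.symm]
    have hp1 : N p1 ∩ Y = {z} := mem_pd.1 (by rw [hpd]; simp)
    have hp2 : N p2 ∩ Y = {z} := mem_pd.1 (by rw [hpd]; simp)
    obtain ⟨c1, hc1', hc1e⟩ := hother p1 hp1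
    obtain ⟨c2, hc2', hc2e⟩ := hother p2 hp2
    have hc12 : c1 ≠ c2 := by
      rintro rfl
      have hpn : (N p1 ∩ K).Nonempty := by rw [hc1e]; simp
      exact hp12 (h.simple hpn (by rw [hc2e, hc1e])).symm
    have hzv : z ∉ N v := ((hmemQ z).1 hz).2
    have haz : a ≠ z := fun h => hzv (h ▸ (mem_pair_left hvab).1)
    have hbz : b ≠ z := fun h => hzv (h ▸ (mem_pair_right hvab).1)
    rcases hc1' with rfl | rfl
    · rcases hc2' with rfl | rfl
      · exact hc12 rfl
      · exact h.tri_false hab haz hbz hvab hc1e hc2e (by rw [hzf, hpd])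
    · rcases hc2' with rfl | rfl
      · exact h.tri_false hab haz hbz hvab hc2e hc1e (by rw [hzf, hpd, pair_comm])
      · exact hc12 rfl

/-- No triangle. -/
theorem BadK.no_triangle (hN : ∀ x, ∃ v, x ∈ N v) (h : BadK N K) {u v w : V} {a b c : X}
    (hab : a ≠ b) (hbc : b ≠ c) (hca : c ≠ a)
    (hu : N u ∩ K = {a, b}) (hv : N v ∩ K = {b, c}) (hw : N w ∩ K = {c, a}) : False := by
  have hB : ({a, b, c} : Finset X) ⊆ K := by
    intro x hx
    rw [mem_insert, mem_insert, mem_singleton] at hx
    rcases hx with rfl | rfl | rfl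
    · exact (mem_pair_left hu).2
    · exact (mem_pair_right hu).2
    · exact (mem_pair_right hv).2
  have hc3 : ({a, b, c} : Finset X).card = 3 := by
    rw [card_insert_of_notMem (by simp [hab, hca.symm]), card_pair hbc]
  have h1 := h.sparse4 hN hB (by omega)
  have huv : u ≠ v := by
    rintro rfl
    rw [hu] at hv
    have : a ∈ ({b, c} : Finset X) := by rw [← hv]; simp
    simp only [mem_insert, mem_singleton] at this
    rcases this with h1 | h1
    · exact hab h1
    · exact hca h1.symm
  have huw : u ≠ w := by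
    rintro rfl
    rw [hu] at hw
    have : b ∈ ({c, a} : Finset X) := by rw [← hw]; simp
    simp only [mem_insert, mem_singleton] at this
    rcases this with h1 | h1
    · exact hbc h1
    · exact hab h1.symm
  have hvw : v ≠ w := by
    rintro rfl
    rw [hv] at hw
    have : b ∈ ({c, a} : Finset X) := by rw [← hw]; simp
    simp only [mem_insert, mem_singleton] at this
    rcases this with h1 | h1
    · exact hbc h1
    · exact hab h1.symm
  have h2 : ({u, v, w} : Finset V) ⊆ J N K {a, b, c} := by
    intro x hx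
    rw [mem_insert, mem_insert, mem_singleton] at hx
    rw [← dead_eq_J, mem_dead]
    rcases hx with rfl | rfl | rfl
    · rw [hu]; refine ⟨by simp, fun y hy => ?_⟩
      simp only [mem_insert, mem_singleton] at hy ⊢; tauto
    · rw [hv]; refine ⟨by simp, fun y hy => ?_⟩
      simp only [mem_insert, mem_singleton] at hy ⊢; tauto
    · rw [hw]; refine ⟨by simp, fun y hy => ?_⟩
      simp only [mem_insert, mem_singleton] at hy ⊢; tauto
  have h4 := card_le_card h2
  have h5 : ({u, v, w} : Finset V).card = 3 := by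
    rw [card_insert_of_notMem (by simp [huv, huw]), card_pair hvw]
  omega

/-- Number of players of a bad graph. -/
lemma BadK.card_le_alive (h : BadK N K) : K.card ≤ (alive N K).card := by
  have h1 : ∑ x ∈ K, (univ.filter fun v => x ∈ N v).card = ∑ v : V, (N v ∩ K).card := by
    have := sum_card_bipartiteAbove_eq_sum_card_bipartiteBelow (s := K) (t := (univ : Finset V))
      (fun (x : X) (v : V) => x ∈ N v)
    unfold bipartiteAbove bipartiteBelow at this
    rw [this]
    refine sum_congr rfl fun v _ => ?_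
    congr 1
    ext x
    rw [mem_filter, mem_inter]
    tauto
  have h2 : 2 * K.card ≤ ∑ x ∈ K, (univ.filter fun v => x ∈ N v).card := by
    have : ∑ x ∈ K, 2 ≤ ∑ x ∈ K, (univ.filter fun v => x ∈ N v).card :=
      sum_le_sum fun x hx => h.two x hx
    rw [sum_const, smul_eq_mul] at this
    omega
  have h3 : ∑ v : V, (N v ∩ K).card = 2 * (alive N K).card := by
    have h4 : ∑ v ∈ alive N K, (N v ∩ K).card = ∑ v : V, (N v ∩ K).card := by
      refine sum_subset (subset_univ _) fun v _ hv => ?_
      rw [mem_alive, not_nonempty_iff_eq_empty] at hv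
      rw [hv, card_empty]
    rw [← h4]
    rw [sum_congr rfl fun v hv => h.gr v (mem_alive.1 hv), sum_const, smul_eq_mul]
    ring
  omega

theorem BadK.five_le (hN : ∀ x, ∃ v, x ∈ N v) (h : BadK N K) : 5 ≤ K.card := by
  have h1 := h.card_le_alive
  have h2 := card_pos.2 h.conn.1
  obtain ⟨j, hj, _⟩ := h.ex
  unfold P at hj
  have hJ : J N K K = alive N K := by
    unfold J
    rw [filter_true_of_mem]
    intro v _
    exact inter_subset_right
  by_contra hlt
  push Not at hlt
  have hcases : K.card = 1 ∨ K.card = 2 ∨ K.card = 3 ∨ K.card = 4 := by omega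
  rcases hcases with hc | hc | hc | hc
  · obtain ⟨v, hv⟩ := card_pos.1 (by omega : 0 < (alive N K).card)
    have h3 := h.gr v (mem_alive.1 hv)
    have h4 := card_le_card (inter_subset_right : N v ∩ K ⊆ K)
    omega
  · have := h.sparse3 hN (Subset.refl K) (by omega)
    rw [hJ] at this
    omega
  · have := h.sparse4 hN (Subset.refl K) (by omega)
    rw [hJ] at this
    omega
  · have := h.sparse4 hN (Subset.refl K) (by omega)
    rw [hJ] at this
    omega

/-- Four-cycle rule. -/
theorem BadK.four (h : BadK N K) {e12 e23 e34 e41 : V} {z1 z2 z3 z4 : X}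
    (h12 : N e12 ∩ K = {z1, z2}) (h23 : N e23 ∩ K = {z2, z3}) (h34 : N e34 ∩ K = {z3, z4})
    (h41 : N e41 ∩ K = {z4, z1}) (d13 : z1 ≠ z3) (d14 : z1 ≠ z4) (d23 : z2 ≠ z3) (d24 : z2 ≠ z4)
    (d34 : z3 ≠ z4) :
    (univ.filter fun w => z3 ∈ N w).card = 2 ∨ (univ.filter fun w => z4 ∈ N w).card = 2 := by
  have hn : (N e12 ∩ K).Nonempty := by rw [h12]; simp
  have hT2 := (h.t2 hn).1
  set U := K \ N e12 with hU
  have hz3K := (mem_pair_right h23).2
  have hz4K := (mem_pair_right h34).2
  have hz3 : z3 ∈ U := by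
    rw [hU, mem_sdiff]
    refine ⟨hz3K, fun hx => ?_⟩
    rcases mem_of_pair h12 hx hz3K with h1 | h1
    · exact d13 h1.symm
    · exact d23 h1.symm
  have hz4 : z4 ∈ U := by
    rw [hU, mem_sdiff]
    refine ⟨hz4K, fun hx => ?_⟩
    rcases mem_of_pair h12 hx hz4K with h1 | h1
    · exact d14 h1.symm
    · exact d24 h1.symm
  have hz1 : z1 ∉ U := by
    rw [hU, mem_sdiff]
    exact fun hx => hx.2 (mem_pair_left h12).1
  have hz2 : z2 ∉ U := by
    rw [hU, mem_sdiff]
    exact fun hx => hx.2 (mem_pair_right h12).1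
  have hUK : U ⊆ K := sdiff_subset
  have hp3 : N e23 ∩ U = {z3} := pendant_of_edge h23 hUK hz3 hz2
  have hp4 : N e41 ∩ U = {z4} := by
    rw [pair_comm] at h41
    exact pendant_of_edge h41 hUK hz4 hz1
  obtain ⟨y, hyU, _, hy1, hT0⟩ := hT2.answer
  have hsub : U \ {y} ⊆ K := sdiff_subset.trans hUK
  by_cases hy3 : y = z3
  · right
    subst hy3
    have hz4' : z4 ∈ U \ {y} := by
      rw [mem_sdiff, mem_singleton]
      exact ⟨hz4, fun h => d34 h.symm⟩
    have ha : N e41 ∩ (U \ {y}) = {z4} := pd_mono hp4 sdiff_subset hz4'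
    have hb : N e34 ∩ (U \ {y}) = {z4} := pendant_of_edge h34 hsub hz4' (by simp)
    have hne : e41 ≠ e34 := by
      rintro rfl
      rw [h41] at h34
      have : z1 ∈ ({y, z4} : Finset X) := by rw [← h34]; simp
      simp only [mem_insert, mem_singleton] at this
      rcases this with h1 | h1
      · exact d13 h1
      · exact d14 h1
    have h2 : 2 ≤ (pd N (U \ {y}) z4).card := by
      have : ({e41, e34} : Finset V) ⊆ pd N (U \ {y}) z4 := by
        intro w hw
        rw [mem_insert, mem_singleton] at hw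
        rw [mem_pd]
        rcases hw with rfl | rfl <;> assumption
      have := card_le_card this
      rwa [card_pair hne] at this
    obtain ⟨_, h3, h4⟩ := hT0.single h2
    rw [h3, h4]
  by_cases hy4 : y = z4
  · left
    subst hy4
    have hz3' : z3 ∈ U \ {y} := by
      rw [mem_sdiff, mem_singleton]
      exact ⟨hz3, d34⟩
    have ha : N e23 ∩ (U \ {y}) = {z3} := pd_mono hp3 sdiff_subset hz3'
    have hb : N e34 ∩ (U \ {y}) = {z3} := by
      rw [pair_comm] at h34
      exact pendant_of_edge h34 hsub hz3' (by simp)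
    have hne : e23 ≠ e34 := by
      rintro rfl
      rw [h23] at h34
      have : z2 ∈ ({z3, y} : Finset X) := by rw [← h34]; simp
      simp only [mem_insert, mem_singleton] at this
      rcases this with h1 | h1
      · exact d23 h1
      · exact d24 h1
    have h2 : 2 ≤ (pd N (U \ {y}) z3).card := by
      have : ({e23, e34} : Finset V) ⊆ pd N (U \ {y}) z3 := by
        intro w hw
        rw [mem_insert, mem_singleton] at hw
        rw [mem_pd]
        rcases hw with rfl | rfl <;> assumption
      have := card_le_card this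
      rwa [card_pair hne] at this
    obtain ⟨_, h3, h4⟩ := hT0.single h2
    rw [h3, h4]
  · exfalso
    have hz3' : z3 ∈ U \ {y} := by
      rw [mem_sdiff, mem_singleton]
      exact ⟨hz3, fun h => hy3 h.symm⟩
    have hz4' : z4 ∈ U \ {y} := by
      rw [mem_sdiff, mem_singleton]
      exact ⟨hz4, fun h => hy4 h.symm⟩
    have hedge : N e34 ∩ (U \ {y}) = {z3, z4} := by
      ext x
      rw [mem_inter, mem_insert, mem_singleton]
      constructor
      · rintro ⟨h1, h2⟩
        exact mem_of_pair h34 h1 (hsub h2)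
      · rintro (rfl | rfl)
        · exact ⟨(mem_pair_left h34).1, hz3'⟩
        · exact ⟨(mem_pair_right h34).1, hz4'⟩
    exact hT0.no_adj hedge d34 (pd_mono hp3 sdiff_subset hz3') (pd_mono hp4 sdiff_subset hz4')

end Pool.Agent.TDG.H71
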