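import Mathlib
import Pool.Agent.Helper71_TDG.Bad

/-!
# TDG: truly bad graphs are 2-connected
-/

set_option linter.unusedSectionVars false
set_option linter.unusedVariables false

namespace Pool.Agent.TDG.H71

open Finset Helper77.TDG Pool.Agent.TDG

variable {V X : Type*} [Fintype V] [DecidableEq V] [DecidableEq X]
variable {N : V → Finset X} {Hv U W K D B K1 K2 : Finset X} {c : X}

lemma pair_of_card {S : Finset X} {v : V} (h : (N v ∩ S).card = 2) {a b : X} (ha : a ∈ N v)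
    (haS : a ∈ S) (hb : b ∈ N v) (hbS : b ∈ S) (hab : a ≠ b) : N v ∩ S = {a, b} := by
  symm
  refine eq_of_subset_of_card_le ?_ ?_
  · intro x hx
    rw [mem_insert, mem_singleton] at hx
    rcases hx with rfl | rfl
    · exact mem_inter.2 ⟨ha, haS⟩
    · exact mem_inter.2 ⟨hb, hbS⟩
  · rw [h, card_pair hab]

lemma exists_other_end {S : Finset X} {v : V} (h : (N v ∩ S).card = 2) {a : X} (ha : a ∈ N v)
    (haS : a ∈ S) : ∃ b, b ≠ a ∧ b ∈ S ∧ N v ∩ S = {a, b} := by
  obtain ⟨b, hb, hba⟩ := exists_mem_ne (by rw [h]; norm_num : 1 < (N v ∩ S).card) a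
  have hb' := mem_inter.1 hb
  exact ⟨b, hba, hb'.2, pair_of_card h ha haS hb'.1 hb'.2 hba.symm⟩

/-- A link from the cut vertex. -/
lemma BadK.exists_link (h : BadK N K) (hc : c ∈ K) (hD : D.Nonempty)
    (hDc : Closed N (K \ {c}) D) : ∃ w z, N w ∩ K = {c, z} ∧ z ∈ D := by
  by_contra hno
  push Not at hno
  have hcl : Closed N K D := by
    refine ⟨hDc.1.trans sdiff_subset, fun x hx y hy => ?_⟩
    rw [mem_inter] at hy
    by_cases hyc : y = c
    · exfalso
      subst hyc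
      obtain ⟨z, hz⟩ := hx
      rw [mem_inter] at hz
      have hzK := mem_sdiff.1 (hDc.1 hz.2)
      have hzy : z ≠ y := by simpa using hzK.2
      have := pair_of_card (h.gr x ⟨y, mem_inter.2 hy⟩) hy.1 hy.2 hz.1 hzK.1 hzy.symm
      exact hno x z this hz.2
    · exact hDc.2 x hx (mem_inter.2 ⟨hy.1, mem_sdiff.2 ⟨hy.2, by simpa using hyc⟩⟩)
  have := h.conn.2 D hD hcl
  have h2 : c ∈ D := by rw [this]; exact hc
  have h3 := hDc.1 h2
  simp at h3

lemma cut_step (h : BadK N K) (h2c : Closed N (K \ {c}) K2) (hP2 : P N K2 % 3 = 2)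
    (hT : T2 N U) (hUK : U ⊆ K) (hcU : c ∈ U) (h2U : K2 ⊆ U) :
    ∃ y, y ≠ c ∧ y ∉ K2 ∧ T0 N (U \ {y}) := by
  obtain ⟨y, hyU, ⟨q, hq⟩, _, hT0⟩ := hT.answer
  refine ⟨y, ?_, ?_, hT0⟩
  · rintro rfl
    have hcl : Closed N (U \ {y}) K2 := by
      refine h2c.mono71 ?_ (sdiff_subset_sdiff hUK (Subset.refl _))
      intro x hx
      rw [mem_sdiff]
      exact ⟨h2U hx, (mem_sdiff.1 (h2c.1 hx)).2⟩
    have := hT0.closed_mod hcl
    omega
  · intro hy
    have hyq := mem_of_pd hq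
    have h1 : (N q ∩ K2).Nonempty := ⟨y, mem_inter.2 ⟨hyq.1, hy⟩⟩
    have h3 : N q ∩ K ⊆ N q ∩ U := by
      intro x hx
      rw [mem_inter] at hx ⊢
      refine ⟨hx.1, ?_⟩
      by_cases hxc : x = c
      · rw [hxc]; exact hcU
      · exact h2U (h2c.2 q h1 (mem_inter.2 ⟨hx.1, mem_sdiff.2 ⟨hx.2, by simpa using hxc⟩⟩))
    have h4 := card_le_card h3
    rw [hq, h.gr q ⟨y, mem_inter.2 ⟨hyq.1, hUK hyq.2⟩⟩, card_singleton] at h4
    omega

lemma cut_descent (h : BadK N K) (hcK : c ∈ K) (h1c : Closed N (K \ {c}) K1)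
    (h2c : Closed N (K \ {c}) K2) (hU : ∀ x ∈ K, x ≠ c → x ∈ K1 ∨ x ∈ K2)
    (hdis : Disjoint K1 K2) (hC1 : Conn N K1) (hC2 : Conn N K2) (hP2 : P N K2 % 3 = 2) :
    ∀ (n : ℕ) (W : Finset X), W.card ≤ n → T0 N W → W ⊆ K → c ∈ W → K2 ⊆ W →
      (∃ p, N p ∩ W = {c}) → False := by
  have hc1 : c ∉ K1 := fun hx => by have := h1c.1 hx; simp at this
  have hc2 : c ∉ K2 := fun hx => by have := h2c.1 hx; simp at this
  intro n
  induction n with
  | zero =>
    intro W hW _ _ hcW _ _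
    have := card_pos.2 ⟨c, hcW⟩
    omega
  | succ n ih =>
    intro W hWn hT hWK hcW h2W hp
    obtain ⟨p, hp⟩ := hp
    -- the link to `K2`
    obtain ⟨w2, z2, hw2, hz2⟩ := h.exists_link hcK hC2.1 h2c
    have hz2c : z2 ≠ c := fun hx => hc2 (hx ▸ hz2)
    have hw2W : N w2 ∩ W = {c, z2} := by
      ext x
      rw [mem_inter, mem_insert, mem_singleton]
      constructor
      · rintro ⟨ha, hb⟩
        exact mem_of_pair hw2 ha (hWK hb)
      · rintro (rfl | rfl)
        · exact ⟨(mem_pair_left hw2).1, hcW⟩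
        · exact ⟨(mem_pair_right hw2).1, h2W hz2⟩
    have hpd1 : (pd N W c).card = 1 := by
      have h1 := hT.pd_le (v := w2) (z := c) (by rw [hw2W, card_pair hz2c.symm])
        (mem_pair_left hw2).1
      have h3 := card_pos.2 ⟨p, mem_pd.2 hp⟩
      omega
    -- the component of `c`
    obtain ⟨L, hL, hcL⟩ := exists_comp_mem (N := N) W.card W c le_rfl hcW
    have hLW := hL.1.1
    have hz2L : z2 ∈ L := hL.1.2 w2 ⟨c, mem_inter.2 ⟨(mem_pair_left hw2).1, hcL⟩⟩
      (by rw [hw2W]; simp)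
    have h2L : K2 ⊆ L := by
      have hcl : Closed N K2 (L ∩ K2) := by
        refine ⟨inter_subset_right, fun x hx y hy => ?_⟩
        have h1 : (N x ∩ L).Nonempty := hx.mono (inter_subset_inter_left inter_subset_left)
        have h3 := hL.1.2 x h1
        rw [mem_inter] at hy ⊢
        exact ⟨h3 (mem_inter.2 ⟨hy.1, h2W hy.2⟩), hy.2⟩
      have := hC2.2 _ ⟨z2, mem_inter.2 ⟨hz2L, hz2⟩⟩ hcl
      rw [← this]
      exact inter_subset_left
    have hPL := hT.closed_mod hL.1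
    have hpdL : pd N L c = pd N W c := by
      ext x
      rw [mem_pd, mem_pd]
      constructor
      · intro hx
        rw [← hL.1.inter_eq71 (by rw [hx]; simp), hx]
      · intro hx
        exact pd_mono hx hLW hcL
    have hPs := P_sdiff (N := N) L {c}
    rw [dead_single hcL, hpdL, hpd1, inter_singleton_of_mem hcL, card_singleton] at hPs
    have h2cl : Closed N (L \ {c}) K2 := by
      refine h2c.mono71 ?_ (sdiff_subset_sdiff (hLW.trans hWK) (Subset.refl _))
      intro x hx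
      rw [mem_sdiff, mem_singleton]
      exact ⟨h2L hx, fun hxc => hc2 (hxc ▸ hx)⟩
    have hPsp := P_split h2cl
    set A := (L \ {c}) \ K2 with hA
    have hmemA : ∀ x, x ∈ A ↔ (x ∈ L ∧ x ≠ c) ∧ x ∉ K2 := by
      intro x; rw [hA, mem_sdiff, mem_sdiff, mem_singleton]
    have hAne : A.Nonempty := by
      rw [nonempty_iff_ne_empty]
      intro hA0
      rw [hA0, P_empty] at hPsp
      omega
    have hA1 : A ⊆ K1 := by
      intro x hx
      rw [hmemA] at hx
      rcases hU x (hWK (hLW hx.1.1)) hx.1.2 with h1 | h1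
      · exact h1
      · exact absurd h1 hx.2
    -- the missing neighbour
    have hcp := mem_of_pd hp
    obtain ⟨u0, hu0c, hu0K, hpK⟩ := exists_other_end
      (h.gr p ⟨c, mem_inter.2 ⟨hcp.1, hcK⟩⟩) hcp.1 hcK
    have hu0W : u0 ∉ W := by
      intro hx
      have : u0 ∈ N p ∩ W := mem_inter.2 ⟨(mem_pair_right hpK).1, hx⟩
      rw [hp, mem_singleton] at this
      exact hu0c this
    have hu01 : u0 ∈ K1 := by
      rcases hU u0 hu0K hu0c with h1 | h1
      · exact h1
      · exact absurd (h2W h1) hu0W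
    have hnc : ¬ Closed N K1 A := by
      intro hcl
      have := hC1.2 A hAne hcl
      have h3 : u0 ∈ A := by rw [this]; exact hu01
      exact hu0W (hLW ((hmemA u0).1 h3).1.1)
    obtain ⟨x, hxA, hxn⟩ : ∃ x, (N x ∩ A).Nonempty ∧ ¬ (N x ∩ K1 ⊆ A) := by
      by_contra hno
      push Not at hno
      exact hnc ⟨hA1, hno⟩
    obtain ⟨y1, hy1⟩ := hxA
    rw [mem_inter] at hy1
    rw [not_subset] at hxn
    obtain ⟨x', hx', hx'A⟩ := hxn
    rw [mem_inter] at hx'
    have hy1L := ((hmemA y1).1 hy1.2).1.1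
    have hy1c := ((hmemA y1).1 hy1.2).1.2
    have hy1W := hLW hy1L
    have hy1K := hWK hy1W
    have hx'K : x' ∈ K := (mem_sdiff.1 (h1c.1 hx'.2)).1
    have hx'y : x' ≠ y1 := by
      rintro rfl
      exact hx'A hy1.2
    have hxK := pair_of_card (h.gr x ⟨y1, mem_inter.2 ⟨hy1.1, hy1K⟩⟩) hx'.1 hx'K hy1.1 hy1K hx'y
    have hx'W : x' ∉ W := by
      intro hx'W
      apply hx'A
      rw [hmemA]
      refine ⟨⟨hL.1.2 x ⟨y1, mem_inter.2 ⟨hy1.1, hy1L⟩⟩ (mem_inter.2 ⟨hx'.1, hx'W⟩), ?_⟩, ?_⟩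
      · rintro rfl
        exact hc1 hx'.2
      · intro h3
        exact disjoint_left.1 hdis hx'.2 h3
    have hxpd : N x ∩ W = {y1} := pendant_of_edge hxK hWK hy1W hx'W
    -- the edge at `y1`
    have hL2 : 2 ≤ L.card := by
      have : ({c, y1} : Finset X) ⊆ L := by
        intro z hz
        rw [mem_insert, mem_singleton] at hz
        rcases hz with rfl | rfl <;> assumption
      have := card_le_card this
      rwa [card_pair hy1c.symm] at this
    obtain ⟨e1, hy1e, he1L⟩ := exists_edge hL.2 (hT.g.mono hLW) hL2 hy1L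
    obtain ⟨y', hy'y, hy'L, he1L'⟩ := exists_other_end he1L hy1e hy1L
    have he1W : N e1 ∩ W = {y1, y'} := by
      rw [← hL.1.inter_eq71 ⟨y1, mem_inter.2 ⟨hy1e, hy1L⟩⟩, he1L']
    have hy'c : y' ≠ c := by
      rintro rfl
      exact hT.no_adj he1W hy1c hxpd hp
    have hy'e := (mem_pair_right he1W).1
    have he1c : c ∉ N e1 := by
      intro hx
      rcases mem_of_pair he1W hx hcW with h3 | h3
      · exact hy1c h3.symm
      · exact hy'c h3.symm
    have he12 : ∀ z ∈ K2, z ∉ N e1 := by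
      intro z hz hze
      rcases mem_of_pair he1W hze (h2W hz) with h3 | h3
      · exact ((hmemA y1).1 hy1.2).2 (h3 ▸ hz)
      · have : z ∈ K1 := h1c.2 e1 ⟨y1, mem_inter.2 ⟨hy1e, hA1 hy1.2⟩⟩
          (mem_inter.2 ⟨hze, h2c.1 hz⟩)
        exact disjoint_left.1 hdis this hz
    have he1n : (N e1 ∩ W).Nonempty := by rw [he1W]; simp
    have hmv := hT.move he1n
    have hc2' : (N e1 ∩ W).card = 2 := by rw [he1W, card_pair hy'y.symm]
    have hd2 : 2 ≤ (dead N W (N e1)).card := by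
      have hne : e1 ≠ x := by
        rintro rfl
        rw [hxpd] at hc2'
        simp at hc2'
      have hsub : ({e1, x} : Finset V) ⊆ dead N W (N e1) := by
        intro w hw
        rw [mem_insert, mem_singleton] at hw
        rcases hw with rfl | rfl
        · exact self_mem_dead he1n
        · rw [mem_dead, hxpd]
          exact ⟨by simp, by simpa using hy1e⟩
      have := card_le_card hsub
      rwa [card_pair hne] at this
    have hT2 := hmv.2 (by omega)
    have hUK : W \ N e1 ⊆ K := sdiff_subset.trans hWK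
    have hcU : c ∈ W \ N e1 := mem_sdiff.2 ⟨hcW, he1c⟩
    have h2U : K2 ⊆ W \ N e1 := fun z hz => mem_sdiff.2 ⟨h2W hz, he12 z hz⟩
    obtain ⟨y2, hy2c, hy22, hT0⟩ := cut_step h h2c hP2 hT2 hUK hcU h2U
    have hcW' : c ∈ (W \ N e1) \ {y2} := mem_sdiff.2 ⟨hcU, by simpa using hy2c.symm⟩
    refine ih ((W \ N e1) \ {y2}) ?_ hT0 (sdiff_subset.trans hUK) hcW' ?_
      ⟨p, pd_mono hp (sdiff_subset.trans sdiff_subset) hcW'⟩
    · have h3 := card_le_card (sdiff_subset : (W \ N e1) \ {y2} ⊆ W \ N e1)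
      have h4 := sdiff_card_lt he1n
      omega
    · intro z hz
      rw [mem_sdiff, mem_singleton]
      exact ⟨h2U hz, fun hx => hy22 (hx ▸ hz)⟩

lemma cut_false (h : BadK N K) (hcK : c ∈ K) (h1c : Closed N (K \ {c}) K1)
    (h2c : Closed N (K \ {c}) K2) (hU : ∀ x ∈ K, x ≠ c → x ∈ K1 ∨ x ∈ K2)
    (hdis : Disjoint K1 K2) (hC1 : Conn N K1) (hC2 : Conn N K2) (hP2 : P N K2 % 3 = 2) :
    False := by
  have hc1 : c ∉ K1 := fun hx => by have := h1c.1 hx; simp at this
  have hc2 : c ∉ K2 := fun hx => by have := h2c.1 hx; simp at this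
  obtain ⟨w1, u, hw1, hu1⟩ := h.exists_link hcK hC1.1 h1c
  have huK : u ∈ K := (mem_sdiff.1 (h1c.1 hu1)).1
  have huc : u ≠ c := fun hx => hc1 (hx ▸ hu1)
  obtain ⟨w', hw'm, hw'ne⟩ := exists_mem_ne (by have := h.two u huK; omega :
    1 < (univ.filter fun v => u ∈ N v).card) w1
  have huw' : u ∈ N w' := (mem_filter.1 hw'm).2
  have hw'n : (N w' ∩ K).Nonempty := ⟨u, mem_inter.2 ⟨huw', huK⟩⟩
  obtain ⟨u', hu'u, hu'K, hw'K⟩ := exists_other_end (h.gr w' hw'n) huw' huK
  have hu'c : u' ≠ c := by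
    rintro rfl
    apply hw'ne
    refine h.simple (v := w1) (w := w') ⟨u, mem_inter.2 ⟨(mem_pair_right hw1).1, huK⟩⟩ ?_
    rw [hw'K, hw1, pair_comm]
  have hcw' : c ∉ N w' := by
    intro hx
    rcases mem_of_pair hw'K hx hcK with h3 | h3
    · exact huc h3.symm
    · exact hu'c h3.symm
  have h2w' : ∀ z ∈ K2, z ∉ N w' := by
    intro z hz hzw
    have : z ∈ K1 := h1c.2 w' ⟨u, mem_inter.2 ⟨huw', hu1⟩⟩ (mem_inter.2 ⟨hzw, h2c.1 hz⟩)
    exact disjoint_left.1 hdis this hz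
  have hT2 := (h.t2 hw'n).1
  have hcU : c ∈ K \ N w' := mem_sdiff.2 ⟨hcK, hcw'⟩
  have h2U : K2 ⊆ K \ N w' := fun z hz => mem_sdiff.2 ⟨(mem_sdiff.1 (h2c.1 hz)).1, h2w' z hz⟩
  obtain ⟨y, hyc, hy2, hT0⟩ := cut_step h h2c hP2 hT2 sdiff_subset hcU h2U
  have hcW' : c ∈ (K \ N w') \ {y} := mem_sdiff.2 ⟨hcU, by simpa using hyc.symm⟩
  refine cut_descent h hcK h1c h2c hU hdis hC1 hC2 hP2 _ _ le_rfl hT0
    (sdiff_subset.trans sdiff_subset) hcW' ?_ ⟨w1, ?_⟩
  · intro z hz
    rw [mem_sdiff, mem_singleton]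
    exact ⟨h2U hz, fun hx => hy2 (hx ▸ hz)⟩
  · rw [pair_comm] at hw1
    refine pendant_of_edge hw1 (sdiff_subset.trans sdiff_subset) hcW' ?_
    intro hx
    exact (mem_sdiff.1 (mem_sdiff.1 hx).1).2 huw'

/-- Classes of the pieces of a hypothetical separation. -/
lemma BadK.cut_class (h : BadK N K) (hcK : c ∈ K) (hD : D.Nonempty)
    (hDc : Closed N (K \ {c}) D) (hDne : D ≠ K \ {c}) : P N D % 3 = 2 := by
  have hD' : ((K \ {c}) \ D).Nonempty := by
    rw [sdiff_nonempty]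
    intro hsub
    exact hDne (Subset.antisymm hDc.1 hsub)
  have key : ∀ D1 D2 : Finset X, D1.Nonempty → Closed N (K \ {c}) D1 →
      Closed N (K \ {c}) D2 → Disjoint D1 D2 → P N D2 % 3 = 0 ∨ P N D2 % 3 = 2 := by
    intro D1 D2 h1 h1c h2c hdis
    obtain ⟨w, z, hw, hz⟩ := h.exists_link hcK h1 h1c
    have hwn : (N w ∩ K).Nonempty := by rw [hw]; simp
    have hr := (h.t2 hwn).1.rr1
    have hcl : Closed N (K \ N w) D2 := by
      refine h2c.mono71 ?_ ?_
      · intro x hx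
        have hxK := mem_sdiff.1 (h2c.1 hx)
        rw [mem_sdiff]
        refine ⟨hxK.1, fun hxw => ?_⟩
        rcases mem_of_pair hw hxw hxK.1 with h3 | h3
        · exact hxK.2 (by simpa using h3)
        · exact disjoint_left.1 hdis hz (h3 ▸ hx)
      · intro x hx
        rw [mem_sdiff] at hx ⊢
        refine ⟨hx.1, fun hxc => hx.2 ?_⟩
        rw [mem_singleton] at hxc
        rw [hxc]
        exact (mem_pair_left hw).1
    have h3 := rr_closed_le hcl
    have h4 := rr_mod (N := N) D2.card D2 le_rfl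
    omega
  have h1 := key D ((K \ {c}) \ D) hD hDc hDc.compl71 disjoint_sdiff
  have h2 := key ((K \ {c}) \ D) D hD' hDc.compl71 hDc disjoint_sdiff.symm
  have h3 := P_split hDc
  have h4 := P_sdiff (N := N) K {c}
  obtain ⟨j, hj, _⟩ := h.ex
  have h5 : (pd N K c).card = 0 := by
    rw [card_eq_zero, eq_empty_iff_forall_notMem]
    intro v hv
    rw [mem_pd] at hv
    have := h.gr v (by rw [hv]; simp)
    rw [hv, card_singleton] at this
    omega
  rw [dead_single hcK, h5, inter_singleton_of_mem hcK, card_singleton] at h4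
  omega

lemma BadK.cut_conn (h : BadK N K) (hcK : c ∈ K) (hD : D.Nonempty)
    (hDc : Closed N (K \ {c}) D) (hDne : D ≠ K \ {c}) : Conn N D := by
  refine ⟨hD, fun D1 hD1 hD1c => ?_⟩
  by_contra hne
  have h0 : (D \ D1).Nonempty := by
    rw [sdiff_nonempty]
    intro hsub
    exact hne (Subset.antisymm hD1c.1 hsub)
  have hne1 : D1 ≠ K \ {c} := by
    rintro rfl
    exact hDne (Subset.antisymm hDc.1 hD1c.1)
  have hne2 : D \ D1 ≠ K \ {c} := by
    intro heq
    exact hDne (Subset.antisymm hDc.1 (by rw [← heq]; exact sdiff_subset))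
  have h1 := h.cut_class hcK hD1 (hD1c.trans71 hDc) hne1
  have h2 := h.cut_class hcK h0 (hD1c.compl71.trans71 hDc) hne2
  have h3 := h.cut_class hcK hD hDc hDne
  have h4 := P_split hD1c
  omega

/-- **Truly bad graphs are 2-connected.** -/
theorem BadK.conn_sdiff (hN : ∀ x, ∃ v, x ∈ N v) (h : BadK N K) (hcK : c ∈ K) :
    Conn N (K \ {c}) := by
  have h5 := h.five_le hN
  refine ⟨?_, fun D hD hDc => ?_⟩
  · rw [← card_pos, sdiff_singleton_eq_erase, card_erase_of_mem hcK]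
    omega
  by_contra hne
  have hD' : ((K \ {c}) \ D).Nonempty := by
    rw [sdiff_nonempty]
    intro hsub
    exact hne (Subset.antisymm hDc.1 hsub)
  have hne' : (K \ {c}) \ D ≠ K \ {c} := by
    intro heq
    obtain ⟨x, hx⟩ := hD
    have h1 := hDc.1 hx
    rw [← heq, mem_sdiff] at h1
    exact h1.2 hx
  refine cut_false (K1 := D) (K2 := (K \ {c}) \ D) h hcK hDc hDc.compl71 ?_ disjoint_sdiff
    (h.cut_conn hcK hD hDc hne) (h.cut_conn hcK hD' hDc.compl71 hne')
    (h.cut_class hcK hD' hDc.compl71 hne')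
  intro x hx hxc
  by_cases hxD : x ∈ D
  · exact Or.inl hxD
  · exact Or.inr (mem_sdiff.2 ⟨mem_sdiff.2 ⟨hx, by simpa using hxc⟩, hxD⟩)

end Pool.Agent.TDG.H71
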