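import Mathlib
import Pool.Agent.Helper71_TDG.TwoConn
import Pool.Agent.Helper34_TDL.Brg0

/-!
# TDG: the facts on truly bad graphs in the form used by the last case
-/

set_option linter.unusedSectionVars false
set_option linter.unusedVariables false

namespace Pool.Agent.TDG.H71

open Finset Helper77.TDG Pool.Agent.TDG Pool.Agent.TDG.BR

lemma meets_pos {V X : Type} [Fintype V] [DecidableEq V] [DecidableEq X] {N : V → Finset X}
    {Hv U L : Finset X} (hL : L ⊆ U) (p : V) :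
    TDL.Meets (posOf N Hv U) p L ↔ (N p ∩ L).Nonempty := by
  unfold TDL.Meets
  show ¬ Disjoint (N p ∩ U) L ↔ _
  rw [not_disjoint_iff]
  constructor
  · rintro ⟨x, h1, h2⟩
    exact ⟨x, mem_inter.2 ⟨(mem_inter.1 h1).1, h2⟩⟩
  · rintro ⟨x, hx⟩
    rw [mem_inter] at hx
    exact ⟨x, mem_inter.2 ⟨hx.1, hL hx.2⟩, hx.2⟩

lemma mem_A {V X : Type} [Fintype V] [DecidableEq V] [DecidableEq X] {N : V → Finset X}
    {Hv U : Finset X} {p : V} :
    p ∈ (posOf N Hv U).A ↔ (N p ∩ U).Nonempty ∧ N p ∩ U ⊆ U \ Hv := by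
  show p ∈ (alive N U).filter _ ↔ _
  rw [mem_filter, mem_alive]

open scoped Classical in
theorem cluOf : CluOfStmt := by
  intro V X _ _ inst N Hv U C hW hC
  obtain rfl : inst = (fun a b => Classical.propDecidable (a = b)) := Subsingleton.elim _ _
  obtain ⟨hCU, hbad, hlt⟩ := hC
  have hk : BadK N C := badK_of_bad hW hbad
  have hN : ∀ x, ∃ v, x ∈ N v := World.cover hW
  have hU : C ⊆ U := hCU.trans sdiff_subset
  have hA : ∀ p, (N p ∩ C).Nonempty → p ∈ (posOf N Hv U).A := fun p hp =>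
    mem_A.2 ⟨hp.mono (inter_subset_inter_left hU), hlt p hp⟩
  have hNC : ∀ p, (posOf N Hv U).N p ∩ C = N p ∩ C := by
    intro p
    show (N p ∩ U) ∩ C = N p ∩ C
    rw [inter_assoc, inter_eq_right.2 hU]
  have hdeg : ∀ x ∈ C, TDL.deg (posOf N Hv U) x = (univ.filter fun v => x ∈ N v).card := by
    intro x hx
    unfold TDL.deg
    congr 1
    ext v
    rw [mem_filter, mem_filter]
    show v ∈ (posOf N Hv U).A ∧ x ∈ N v ∩ U ↔ _
    constructor
    · rintro ⟨-, h⟩
      exact ⟨mem_univ v, (mem_inter.1 h).1⟩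
    · rintro ⟨-, h⟩
      exact ⟨hA v ⟨x, mem_inter.2 ⟨h, hx⟩⟩, mem_inter.2 ⟨h, hU hx⟩⟩
  have hEi : ∀ B, TDL.Ei (posOf N Hv U) C B = J N C B := by
    intro B
    ext p
    rw [← dead_eq_J, mem_dead]
    unfold TDL.Ei
    rw [mem_filter, meets_pos hU, hNC]
    exact ⟨fun h => h.2, fun h => ⟨hA p h.1, h⟩⟩
  have hE : TDL.E (posOf N Hv U) C = alive N C := by
    ext p
    unfold TDL.E
    rw [mem_filter, meets_pos hU, mem_alive]
    exact ⟨fun h => h.2, fun h => ⟨hA p h, h⟩⟩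
  have hcn : ∀ c : X, Conn N (C \ {c}) := by
    intro c
    by_cases hc : c ∈ C
    · exact hk.conn_sdiff hN hc
    · rw [sdiff_eq_self_of_disjoint (by simpa using hc)]
      exact hk.conn
  refine ⟨hCU, ?_, ?_, ?_, ?_, ?_, ?_, ?_⟩
  · intro p hp hm
    rw [meets_pos hU] at hm
    rw [hNC]
    exact hk.gr p hm
  · intro p hp p' hp' hm he
    rw [meets_pos hU] at hm
    rw [hNC, hNC] at he
    exact (hk.simple hm he.symm).symm
  · intro v L hL hne hneq
    rw [← sdiff_singleton_eq_erase] at hL hneq ⊢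
    by_contra hno
    push Not at hno
    refine hneq ((hcn v).2 L hne ⟨hL, fun p hp x hx => ?_⟩)
    by_contra hxL
    rw [mem_inter] at hx
    have hLU : L ⊆ U := hL.trans (sdiff_subset.trans hU)
    have hmL : (N p ∩ C).Nonempty := hp.mono (inter_subset_inter_left (hL.trans sdiff_subset))
    refine hno p (hA p hmL) ((meets_pos hLU p).2 hp) ?_
    rw [meets_pos (sdiff_subset.trans (sdiff_subset.trans hU))]
    exact ⟨x, mem_inter.2 ⟨hx.1, mem_sdiff.2 ⟨hx.2, hxL⟩⟩⟩
  · intro B hB h2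
    rw [hEi]
    exact hk.sparse3 hN hB h2
  · intro B hB h3
    rw [hEi]
    exact hk.sparse4 hN hB h3
  · rw [hE]
    obtain ⟨j, hj, -⟩ := hk.ex
    unfold P at hj
    omega
  · intro u v w z p1 h1 p2 h2 p3 h3 p4 h4 hnd e1 e2 e3 e4
    rw [hNC] at e1 e2 e3 e4
    simp only [List.nodup_cons, List.mem_cons, List.not_mem_nil, or_false, not_or,
      List.nodup_nil, and_true, not_false_eq_true] at hnd
    obtain ⟨⟨huv', huw', huz'⟩, ⟨hvw', hvz'⟩, hwz'⟩ := hnd
    have huv : u ≠ v := huv'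
    have huw : u ≠ w := huw'
    have huz : u ≠ z := huz'
    have hvw : v ≠ w := hvw'
    have hvz : v ≠ z := hvz'
    have hwz : w ≠ z := hwz'
    have k1 := hk.four e1 e2 e3 e4 huw huz hvw hvz hwz
    have k2 := hk.four e2 e3 e4 e1 hvz huv.symm hwz huw.symm huz.symm
    have k3 := hk.four e3 e4 e1 e2 huw.symm hvw.symm huz.symm hvz.symm huv
    have k4 := hk.four e4 e1 e2 e3 hvz.symm hwz.symm huv huw hvw
    rw [hdeg u (mem_pair_left e1).2, hdeg v (mem_pair_right e1).2, hdeg w (mem_pair_left e3).2,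
      hdeg z (mem_pair_right e3).2]
    tauto

end Pool.Agent.TDG.H71
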